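import Mathlib

/-!
# Rank bound for determinants whose rows are split between two players

If the rows of a square matrix `D J J'` are functions of `J` only, of `J'` only, or constant,
then `det (D J J')` is a sum of `2 ^ r` products (function of `J`) times (function of `J'`),
where `r` is the number of nonconstant rows.
-/

namespace Pool.Agent.Helper15.RD

open Matrix

variable {K : Type*} [Field K]

/-- The linear functional on the exterior algebra which computes determinants. -/
noncomputable def detFun (r : ℕ) : ExteriorAlgebra K (Fin r → K) →ₗ[K] K :=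
  ExteriorAlgebra.liftAlternating (R := K) (M := Fin r → K) (N := K)
    (fun i => if h : i = r then
      (Matrix.detRowAlternating (R := K) (n := Fin r)).domDomCongr (finCongr h.symm) else 0)

lemma detFun_apply (r : ℕ) (v : Fin r → Fin r → K) :
    detFun r (ExteriorAlgebra.ιMulti K r v) = Matrix.det (Matrix.of v) := by
  unfold detFun
  rw [ExteriorAlgebra.liftAlternating_apply_ιMulti]
  simp only [dite_true]
  rfl

/-- Splitting a determinant with `a` rows of the first kind and `b` rows of the second kind. -/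
lemma det_append {S S' : Type*} {a b : ℕ} (u : S → Fin a → Fin (a + b) → K)
    (v : S' → Fin b → Fin (a + b) → K) :
    ∃ (P : S → Finset (Fin (a + b)) → K) (Q : Finset (Fin (a + b)) → S' → K),
      ∀ J J', Matrix.det (Matrix.of (Fin.append (u J) (v J'))) = ∑ T, P J T * Q T J' := by
  classical
  let B := (Pi.basisFun K (Fin (a + b))).ExteriorAlgebra
  refine ⟨fun J T => detFun (a + b) (ExteriorAlgebra.ιMulti K a (u J) * B T),
    fun T J' => B.repr (ExteriorAlgebra.ιMulti K b (v J')) T, fun J J' => ?_⟩
  rw [← detFun_apply, ← ExteriorAlgebra.ιMulti_mul_ιMulti]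
  conv_lhs => rw [← B.sum_repr (ExteriorAlgebra.ιMulti K b (v J'))]
  rw [Finset.mul_sum, map_sum]
  refine Finset.sum_congr rfl fun T _ => ?_
  rw [Algebra.mul_smul_comm, map_smul, smul_eq_mul, mul_comm]

/-- General form: the index type is arbitrary. -/
theorem det_split {S S' ι : Type*} [Fintype ι] [DecidableEq ι] (p q : ι → Prop)
    [DecidablePred p] [DecidablePred q] (hpq : ∀ i, p i → ¬ q i)
    (D : S → S' → Matrix ι ι K)
    (hp : ∀ i, p i → ∀ J J₁ J₂, D J J₁ i = D J J₂ i)
    (hq : ∀ i, q i → ∀ J₁ J₂ J', D J₁ J' i = D J₂ J' i)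
    (hf : ∀ i, ¬ p i → ¬ q i → ∀ J₁ J₂ J₁' J₂', D J₁ J₁' i = D J₂ J₂' i) :
    ∃ (P : S → Finset (Fin (Fintype.card {i // p i} + Fintype.card {i // q i})) → K)
      (Q : Finset (Fin (Fintype.card {i // p i} + Fintype.card {i // q i})) → S' → K),
      ∀ J J', Matrix.det (D J J') = ∑ T, P J T * Q T J' := by
  classical
  by_cases h0 : ∀ J J', Matrix.det (D J J') = 0
  · exact ⟨fun _ _ => 0, fun _ _ => 0, fun J J' => by simp [h0 J J']⟩
  push Not at h0
  obtain ⟨J0, J0', hW⟩ := h0
  set W := D J0 J0' with hWdef
  have hWu : IsUnit W.det := isUnit_iff_ne_zero.mpr hW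
  let E : S → S' → Matrix ι ι K := fun J J' => D J J' * W⁻¹
  have hdet : ∀ J J', Matrix.det (D J J') = Matrix.det (E J J') * W.det := by
    intro J J'
    have : D J J' = E J J' * W := by
      simp only [E]
      rw [Matrix.mul_assoc, Matrix.nonsing_inv_mul _ hWu, Matrix.mul_one]
    conv_lhs => rw [this, Matrix.det_mul]
  have hrow : ∀ J J' J₁ J₁' i, D J J' i = D J₁ J₁' i → E J J' i = E J₁ J₁' i := by
    intro J J' J₁ J₁' i h
    funext j
    simp only [E, Matrix.mul_apply]
    rw [h]
  have hfix : ∀ J J' i, ¬ p i → ¬ q i → E J J' i = (1 : Matrix ι ι K) i := by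
    intro J J' i h1 h2
    rw [hrow J J' J0 J0' i (hf i h1 h2 _ _ _ _)]
    simp only [E]
    rw [← hWdef, Matrix.mul_nonsing_inv _ hWu]
  let pq : ι → Prop := fun i => p i ∨ q i
  have hblock : ∀ J J', Matrix.det (E J J') = Matrix.det (toSquareBlockProp (E J J') pq) := by
    intro J J'
    rw [Matrix.twoBlockTriangular_det (E J J') pq]
    · have : (toSquareBlockProp (E J J') fun i => ¬ pq i) = 1 := by
        ext ⟨i, hi⟩ ⟨j, hj⟩
        have hi' : ¬ p i ∧ ¬ q i := not_or.mp hi
        simp only [toSquareBlockProp, toBlock_apply, Matrix.of_apply]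
        change E J J' i j = _
        rw [hfix J J' i hi'.1 hi'.2]
        simp only [Matrix.one_apply, Subtype.mk.injEq]
      rw [this, Matrix.det_one, mul_one]
    · intro i hi j hj
      have hi' : ¬ p i ∧ ¬ q i := not_or.mp hi
      rw [hfix J J' i hi'.1 hi'.2]
      apply Matrix.one_apply_ne
      rintro rfl
      exact hi hj
  let a := Fintype.card {i // p i}
  let b := Fintype.card {i // q i}
  let ea : {i // p i} ≃ Fin a := Fintype.equivFin _
  let eb : {i // q i} ≃ Fin b := Fintype.equivFin _
  have hdisj : Disjoint p q := by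
    rw [Pi.disjoint_iff]
    intro i
    rw [Prop.disjoint_iff]
    intro h
    exact hpq i h.1 h.2
  let e : {i // p i ∨ q i} ≃ Fin (a + b) :=
    (subtypeOrEquiv p q hdisj).trans ((Equiv.sumCongr ea eb).trans finSumFinEquiv)
  have he1 : ∀ x : Fin a, ((e.symm (Fin.castAdd b x)) : ι) = (ea.symm x : ι) := by
    intro x
    simp [e, subtypeOrEquiv]
  have he2 : ∀ x : Fin b, ((e.symm (Fin.natAdd a x)) : ι) = (eb.symm x : ι) := by
    intro x
    simp [e, subtypeOrEquiv]
  let u : S → Fin a → Fin (a + b) → K := fun J x y => E J J0' (ea.symm x) (e.symm y)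
  let v : S' → Fin b → Fin (a + b) → K := fun J' x y => E J0 J' (eb.symm x) (e.symm y)
  obtain ⟨P, Q, hPQ⟩ := det_append u v
  refine ⟨fun J T => P J T * W.det, Q, fun J J' => ?_⟩
  rw [hdet, hblock]
  have hkey : Matrix.det (toSquareBlockProp (E J J') pq) =
      Matrix.det (Matrix.of (Fin.append (u J) (v J'))) := by
    rw [← Matrix.det_submatrix_equiv_self e.symm]
    congr 1
    ext x y
    simp only [Matrix.submatrix_apply, Matrix.of_apply, toSquareBlockProp, toBlock_apply]
    refine Fin.addCases (fun x => ?_) (fun x => ?_) x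
    · rw [Fin.append_left]
      simp only [u]
      rw [he1]
      have := hrow J J' J J0' (ea.symm x) (hp _ (ea.symm x).2 _ _ _)
      exact congrFun this _
    · rw [Fin.append_right]
      simp only [v]
      rw [he2]
      have := hrow J J' J0 J' (eb.symm x) (hq _ (eb.symm x).2 _ _ _)
      exact congrFun this _
  rw [hkey, hPQ, Finset.sum_mul]
  refine Finset.sum_congr rfl fun T _ => ?_
  ring

end Pool.Agent.Helper15.RD
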