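import Pool.Agent.Helper15.RD.BlockGraph
import Pool.Agent.Helper15.RD.Wedge

/-!
# The version in which only the total number of used rows is bounded
-/

namespace Pool.Agent.Helper15.RD

open Finset

/-- A square matrix of any size whose rows are arbitrary functions of at most one row of `X`. -/
structure RowFun (K : Type*) (n : ℕ) where
  /-- the size of the matrix -/
  size : ℕ
  /-- the matrix attached to the 0-1 matrix `X` -/
  mat : (Fin n → Fin n → Bool) → Matrix (Fin size) (Fin size) K
  /-- the row of `X` on which the `i`-th row of the matrix depends (`none`: constant row) -/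
  owner : Fin size → Option (Fin n)
  /-- the `i`-th row of the matrix is a function of the row `owner i` of `X` alone -/
  loc : ∀ (i : Fin size) (X Y : Fin n → Fin n → Bool),
    (∀ j, owner i = some j → X j = Y j) → mat X i = mat Y i

/-- The number of rows of the matrix which use the row `j` of `X`. -/
def RowFun.rd {K : Type*} {n : ℕ} (D : RowFun K n) (j : Fin n) : ℕ :=
  (Finset.univ.filter fun i => D.owner i = some j).card

/-- Reindexing a factorisation. -/
lemma fin_factor {K S S' ι : Type*} [Field K] [Fintype ι] (f : S → S' → K) (P : S → ι → K)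
    (Q : ι → S' → K) (h : ∀ x y, f x y = ∑ i, P x i * Q i y) {B : ℕ}
    (hB : Fintype.card ι ≤ B) :
    ∃ (P' : S → Fin B → K) (Q' : Fin B → S' → K), ∀ x y, f x y = ∑ i, P' x i * Q' i y := by
  classical
  have hB' : Fintype.card ι ≤ Fintype.card (Fin B) := by rwa [Fintype.card_fin]
  obtain ⟨e⟩ := Function.Embedding.nonempty_of_card_le hB'
  refine ⟨fun x => Function.extend e (P x) 0, fun b y => Function.extend e (fun i => Q i y) 0 b,
    fun x y => ?_⟩
  rw [h]
  apply Fintype.sum_of_injective e e.injective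
  · intro b hb
    have hb' : ¬ ∃ a, e a = b := fun ⟨a, ha⟩ => hb ⟨a, ha⟩
    show Function.extend e (P x) 0 b * Function.extend e (fun i => Q i y) 0 b = 0
    rw [Function.extend_apply' _ _ _ hb', Function.extend_apply' _ _ _ hb']
    simp
  · intro i
    show P x i * Q i y =
      Function.extend e (P x) 0 (e i) * Function.extend e (fun i => Q i y) 0 (e i)
    rw [e.injective.extend_apply, e.injective.extend_apply]

/-- If fewer products than points suffice, some nonzero vector is annihilated. -/
lemma kernel_of_factor {K S S' : Type*} [Field K] [Fintype S] {t B : ℕ} (F : Fin t → S → S' → K)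
    (h : ∀ s, ∃ (P : S → Fin B → K) (Q : Fin B → S' → K), ∀ x y, F s x y = ∑ i, P x i * Q i y)
    (hlt : t * B < Fintype.card S) :
    ∃ Φ : S → K, Φ ≠ 0 ∧ ∀ y, ∑ x, Φ x * ∑ s, F s x y = 0 := by
  classical
  choose P Q hPQ using h
  let f : (S → K) →ₗ[K] (Fin t × Fin B → K) :=
    { toFun := fun Φ z => ∑ x, Φ x * P z.1 x z.2
      map_add' := by
        intro a b
        funext x
        simp only [Pi.add_apply, add_mul, Finset.sum_add_distrib]
      map_smul' := by
        intro c a
        funext x
        simp only [Pi.smul_apply, smul_eq_mul, RingHom.id_apply, Finset.mul_sum, mul_assoc] }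
  have hker : LinearMap.ker f ≠ ⊥ := by
    apply LinearMap.ker_ne_bot_of_finrank_lt
    rw [Module.finrank_fintype_fun_eq_card, Module.finrank_fintype_fun_eq_card,
      Fintype.card_prod, Fintype.card_fin, Fintype.card_fin]
    exact hlt
  obtain ⟨Φ, hΦ, hne⟩ := Submodule.exists_mem_ne_zero_of_ne_bot hker
  refine ⟨Φ, hne, fun y => ?_⟩
  rw [LinearMap.mem_ker] at hΦ
  have h1 : ∀ s b, ∑ x, Φ x * P s x b = 0 := fun s b => congrFun hΦ (s, b)
  calc ∑ x, Φ x * ∑ s, F s x y
      = ∑ x, ∑ s, ∑ b, Φ x * P s x b * Q s b y := by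
        refine Finset.sum_congr rfl fun x _ => ?_
        rw [Finset.mul_sum]
        refine Finset.sum_congr rfl fun s _ => ?_
        rw [hPQ s x y, Finset.mul_sum]
        refine Finset.sum_congr rfl fun b _ => ?_
        ring
    _ = ∑ s, ∑ b, (∑ x, Φ x * P s x b) * Q s b y := by
        rw [Finset.sum_comm]
        refine Finset.sum_congr rfl fun s _ => ?_
        rw [Finset.sum_comm]
        refine Finset.sum_congr rfl fun b _ => ?_
        rw [Finset.sum_mul]
    _ = 0 := by
        refine Finset.sum_eq_zero fun s _ => Finset.sum_eq_zero fun b _ => ?_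
        rw [h1, zero_mul]

/-- Overriding the values of `x` on the heavy indices. -/
def ov {m q : ℕ} (hv : Fin m → Prop) [DecidablePred hv] (u : {l // hv l} → Fin q)
    (x : Fin m → Fin q) : Fin m → Fin q :=
  fun l => if h : hv l then u ⟨l, h⟩ else x l

lemma ov_self {m q : ℕ} (hv : Fin m → Prop) [DecidablePred hv] (x : Fin m → Fin q) :
    ov hv (fun z => x z.1) x = x := by
  funext l
  unfold ov
  split_ifs <;> rfl

variable {K : Type*} {n m d : ℕ}

lemma card_fib_le (D : RowFun K n) {Z : Type*} [Fintype Z] (ρ : Z → Fin n) (hv : Z → Prop)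
    [DecidablePred hv] (r : Fin D.size → Prop) [DecidablePred r]
    (hr : ∀ i, r i → ∃ z, ¬ hv z ∧ D.owner i = some (ρ z)) :
    Fintype.card {i // r i} ≤ ∑ z, if hv z then 0 else D.rd (ρ z) := by
  classical
  rw [Fintype.card_subtype]
  have h1 : (univ.filter r) ⊆ (univ.filter fun z => ¬ hv z).biUnion
      fun z => univ.filter fun i => D.owner i = some (ρ z) := by
    intro i hi
    rw [mem_filter] at hi
    obtain ⟨z, hz, hiz⟩ := hr i hi.2
    rw [mem_biUnion]
    exact ⟨z, by simp [hz], by simp [hiz]⟩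
  refine (Finset.card_le_card h1).trans ((Finset.card_biUnion_le).trans ?_)
  rw [Finset.sum_filter]
  refine Finset.sum_le_sum fun z _ => ?_
  by_cases h : hv z
  · simp [h]
  · simp only [h, not_false_eq_true, if_true, if_false]
    exact le_rfl

variable [Field K]

/-- One determinant, restricted to the block test graphs, is a sum of
`2 ^ (∑ z, min (rd (ρ z)) d)` products. -/
lemma one_factor' (D : RowFun K n) (ρ : Fin m ⊕ Fin m → Fin n) (hρ : Function.Injective ρ)
    (col : Fin m × Fin (2 ^ d) → Fin n) {B : ℕ} (hBd : 2 ^ (∑ z, min (D.rd (ρ z)) d) ≤ B) :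
    ∃ (P : (Fin m → Fin (2 ^ d)) → Fin B → K) (Q : Fin B → (Fin m → Fin (2 ^ d)) → K),
      ∀ x y, (D.mat (bgr ρ col x y)).det = ∑ i, P x i * Q i y := by
  classical
  let hA : Fin m → Prop := fun l => d < D.rd (ρ (.inl l))
  let hB : Fin m → Prop := fun l => d < D.rd (ρ (.inr l))
  -- rows of the matrix which use a light row of one of the players
  let p : Fin D.size → Prop := fun i => ∃ l, ¬ hA l ∧ D.owner i = some (ρ (.inl l))
  let q : Fin D.size → Prop := fun i => ∃ l, ¬ hB l ∧ D.owner i = some (ρ (.inr l))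
  have hlr : ∀ l l' : Fin m, ρ (.inl l) ≠ ρ (.inr l') := fun l l' h => by
    have := hρ h
    simp at this
  have hpq : ∀ i, p i → ¬ q i := by
    rintro i ⟨l, _, hl⟩ ⟨l', _, hl'⟩
    rw [hl] at hl'
    exact hlr l l' (Option.some.inj hl')
  have key : ∀ (u : {l // hA l} → Fin (2 ^ d)) (v : {l // hB l} → Fin (2 ^ d)),
      ∃ (P : (Fin m → Fin (2 ^ d)) →
          Finset (Fin (Fintype.card {i // p i} + Fintype.card {i // q i})) → K)
        (Q : Finset (Fin (Fintype.card {i // p i} + Fintype.card {i // q i})) →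
          (Fin m → Fin (2 ^ d)) → K),
        ∀ x y, (D.mat (bgr ρ col (ov hA u x) (ov hB v y))).det = ∑ T, P x T * Q T y := by
    intro u v
    apply det_split p q hpq
    · rintro i ⟨l, _, hl⟩ x y y'
      apply D.loc
      intro j hj
      rw [hl] at hj
      have : ρ (.inl l) = j := Option.some.inj hj
      subst this
      exact bgr_left _ _ _ _ _ _ _ (fun _ _ => rfl) (fun l' hl' => absurd hl'.symm (hlr l l'))
    · rintro i ⟨l, _, hl⟩ x x' y
      apply D.loc
      intro j hj
      rw [hl] at hj
      have : ρ (.inr l) = j := Option.some.inj hj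
      subst this
      exact bgr_left _ _ _ _ _ _ _ (fun l' hl' => absurd hl' (hlr l' l)) (fun _ _ => rfl)
    · intro i hp hq x x' y y'
      apply D.loc
      intro j hj
      apply bgr_left
      · intro l hl
        by_cases h : hA l
        · simp only [ov, dif_pos h]
        · exact absurd ⟨l, h, by rw [hj, hl]⟩ hp
      · intro l hl
        by_cases h : hB l
        · simp only [ov, dif_pos h]
        · exact absurd ⟨l, h, by rw [hj, hl]⟩ hq
  choose P Q hPQ using key
  have hcp : Fintype.card {i // p i} ≤ ∑ l, if hA l then 0 else D.rd (ρ (.inl l)) :=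
    card_fib_le D (fun l => ρ (.inl l)) hA p fun i hi => hi
  have hcq : Fintype.card {i // q i} ≤ ∑ l, if hB l then 0 else D.rd (ρ (.inr l)) :=
    card_fib_le D (fun l => ρ (.inr l)) hB q fun i hi => hi
  have hcA : ∑ l, min (D.rd (ρ (.inl l))) d =
      d * Fintype.card {l // hA l} + ∑ l, if hA l then 0 else D.rd (ρ (.inl l)) := by
    rw [Fintype.card_subtype, Finset.card_filter, Finset.mul_sum, ← Finset.sum_add_distrib]
    refine Finset.sum_congr rfl fun l _ => ?_
    by_cases h : hA l
    · simp only [if_pos h, mul_one, add_zero]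
      exact min_eq_right (le_of_lt h)
    · simp only [if_neg h, mul_zero, zero_add]
      exact min_eq_left (not_lt.mp h)
  have hcB : ∑ l, min (D.rd (ρ (.inr l))) d =
      d * Fintype.card {l // hB l} + ∑ l, if hB l then 0 else D.rd (ρ (.inr l)) := by
    rw [Fintype.card_subtype, Finset.card_filter, Finset.mul_sum, ← Finset.sum_add_distrib]
    refine Finset.sum_congr rfl fun l _ => ?_
    by_cases h : hB l
    · simp only [if_pos h, mul_one, add_zero]
      exact min_eq_right (le_of_lt h)
    · simp only [if_neg h, mul_zero, zero_add]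
      exact min_eq_left (not_lt.mp h)
  apply fin_factor (ι := ({l // hA l} → Fin (2 ^ d)) × ({l // hB l} → Fin (2 ^ d)) ×
      Finset (Fin (Fintype.card {i // p i} + Fintype.card {i // q i})))
    (fun x y => (D.mat (bgr ρ col x y)).det)
    (fun x z => if z.1 = (fun l => x l.1) then P z.1 z.2.1 x z.2.2 else 0)
    (fun z y => if z.2.1 = (fun l => y l.1) then Q z.1 z.2.1 z.2.2 y else 0)
  · intro x y
    rw [Fintype.sum_prod_type, Finset.sum_eq_single (fun l => x l.1)]
    · rw [Fintype.sum_prod_type, Finset.sum_eq_single (fun l => y l.1)]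
      · simp only [if_true]
        rw [← hPQ, ov_self, ov_self]
      · intro v _ hv
        simp only [if_neg hv, mul_zero, Finset.sum_const_zero]
      · intro h
        exact absurd (mem_univ _) h
    · intro u _ hu
      simp only [if_neg hu, zero_mul, Finset.sum_const_zero]
    · intro h
      exact absurd (mem_univ _) h
  · refine le_trans ?_ hBd
    rw [Fintype.card_prod, Fintype.card_prod, Fintype.card_fun, Fintype.card_fun,
      Fintype.card_finset, Fintype.card_fin, Fintype.card_fin, ← pow_mul, ← pow_mul, ← pow_add,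
      ← pow_add, Fintype.sum_sum_type]
    apply Nat.pow_le_pow_right (by norm_num)
    omega

/-- If every matrix has small cost on the chosen rows, then there are many matrices. -/
theorem choice_bound [CharZero K] (hd : 1 ≤ d) {t : ℕ} (D : Fin t → RowFun K n)
    (h : ∀ X, ∑ s, ((D s).mat X).det = (numPM X : K))
    (ρ : Fin m ⊕ Fin m → Fin n) (hρ : Function.Injective ρ)
    (col : Fin m × Fin (2 ^ d) → Fin n) (hcol : Function.Injective col) (B : ℕ)
    (hB : ∀ s, 2 ^ (∑ z, min ((D s).rd (ρ z)) d) ≤ B) :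
    2 ^ (d * m) ≤ t * B := by
  classical
  by_contra hlt
  rw [not_le] at hlt
  obtain ⟨Φ, hne, hΦ⟩ := kernel_of_factor
    (fun (s : Fin t) (x y : Fin m → Fin (2 ^ d)) => ((D s).mat (bgr ρ col x y)).det)
    (fun s => one_factor' (D s) ρ hρ col (hB s))
    (by rw [Fintype.card_fun, Fintype.card_fin, Fintype.card_fin, ← pow_mul]; exact hlt)
  apply hne
  have hq : 2 ≤ 2 ^ d := by
    calc 2 = 2 ^ 1 := by norm_num
      _ ≤ 2 ^ d := Nat.pow_le_pow_right (by norm_num) hd
  apply neq_kernel hq
  intro y
  have h1 := hΦ y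
  have hf : ((n - 2 * m).factorial : K) ≠ 0 := by
    exact_mod_cast (Nat.factorial_pos _).ne'
  have h2 : ∑ x, Φ x * ∑ s, ((D s).mat (bgr ρ col x y)).det =
      ((n - 2 * m).factorial : K) * ∑ x, (if ∀ l, x l ≠ y l then Φ x else 0) := by
    rw [Finset.mul_sum]
    refine Finset.sum_congr rfl fun x _ => ?_
    rw [h]
    by_cases hd : ∀ l, x l ≠ y l
    · rw [numPM_bgr_of_ne ρ hρ col hcol x y hd, if_pos hd, mul_comm]
    · rw [numPM_bgr_of_eq ρ hρ col x y hd, if_neg hd]
      simp
  rw [h2] at h1
  exact (mul_eq_zero.mp h1).resolve_left hf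

/-- Approximate version of `choice_bound`. -/
theorem choice_bound_approx (hd : 1 ≤ d) {t : ℕ} (D : Fin t → RowFun ℂ n) (ε : ℝ)
    (hε : (2 * (2 ^ d : ℕ) : ℝ) ^ m * ε < (n - 2 * m).factorial)
    (h : ∀ X, ‖∑ s, ((D s).mat X).det - (numPM X : ℂ)‖ ≤ ε)
    (ρ : Fin m ⊕ Fin m → Fin n) (hρ : Function.Injective ρ)
    (col : Fin m × Fin (2 ^ d) → Fin n) (hcol : Function.Injective col) (B : ℕ)
    (hB : ∀ s, 2 ^ (∑ z, min ((D s).rd (ρ z)) d) ≤ B) :
    2 ^ (d * m) ≤ t * B := by
  classical
  by_contra hlt
  rw [not_le] at hlt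
  obtain ⟨Φ, hne, hΦ⟩ := kernel_of_factor
    (fun (s : Fin t) (x y : Fin m → Fin (2 ^ d)) => ((D s).mat (bgr ρ col x y)).det)
    (fun s => one_factor' (D s) ρ hρ col (hB s))
    (by rw [Fintype.card_fun, Fintype.card_fin, Fintype.card_fin, ← pow_mul]; exact hlt)
  apply hne
  have hq : 2 ≤ 2 ^ d := by
    calc 2 = 2 ^ 1 := by norm_num
      _ ≤ 2 ^ d := Nat.pow_le_pow_right (by norm_num) hd
  have hε0 : 0 ≤ ε := (norm_nonneg _).trans (h (fun _ _ => true))
  refine neq_kernel_robust hq ((n - 2 * m).factorial : ℝ) ε (by exact_mod_cast Nat.factorial_pos _)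
    hε0 hε (fun x y => ∑ s, ((D s).mat (bgr ρ col x y)).det) ?_ Φ hΦ
  intro x y
  have h1 := h (bgr ρ col x y)
  by_cases hd : ∀ l, x l ≠ y l
  · rw [numPM_bgr_of_ne ρ hρ col hcol x y hd] at h1
    rw [if_pos hd]
    exact_mod_cast h1
  · rw [numPM_bgr_of_eq ρ hρ col x y hd] at h1
    rw [if_neg hd]
    simpa using h1

end Pool.Agent.Helper15.RD
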