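import Pool.Agent.Helper15.RD.Avg

/-!
# Random choice of the rows
-/

namespace Pool.Agent.Helper15.RD

open Finset

/-- `exp (x / (2 d)) ≤ 1 + (exp (1/2) - 1) x / d` for `0 ≤ x ≤ d`. -/
lemma exp_chord {x d : ℝ} (hd : 0 < d) (hx : 0 ≤ x) (hxd : x ≤ d) :
    Real.exp (x / (2 * d)) ≤ 1 + (Real.exp (1 / 2) - 1) * (x / d) := by
  have hb : 0 ≤ x / d := by positivity
  have ha : 0 ≤ 1 - x / d := by
    have : x / d ≤ 1 := by rw [div_le_one hd]; exact hxd
    linarith
  have h := convexOn_exp.2 (Set.mem_univ (0 : ℝ)) (Set.mem_univ (1 / 2 : ℝ)) ha hb (by ring)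
  simp only [smul_eq_mul, mul_zero, zero_add, Real.exp_zero, mul_one] at h
  have e : x / d * (1 / 2) = x / (2 * d) := by field_simp
  rw [e] at h
  linarith

/-- Moment bound: `F z c ∈ [0, d]` with total sum at most `W`. -/
lemma moment_bound {Z : Type*} [Fintype Z] [DecidableEq Z] {w : ℕ} (hw : 0 < w) (d : ℕ) (hd : 0 < d)
    (F : Z → Fin w → ℕ) (hF : ∀ z c, F z c ≤ d) (W : ℝ) (hW : ∑ z, ∑ c, (F z c : ℝ) ≤ W) :
    ∑ u : Z → Fin w, Real.exp ((∑ z, (F z (u z) : ℝ)) / (2 * d)) ≤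
      (w : ℝ) ^ Fintype.card Z * Real.exp ((Real.exp (1 / 2) - 1) * (W / (w * d))) := by
  have hd' : (0 : ℝ) < d := by exact_mod_cast hd
  have hw' : (0 : ℝ) < w := by exact_mod_cast hw
  have he : 0 ≤ Real.exp (1 / 2) - 1 := by
    have := Real.add_one_le_exp (1 / 2 : ℝ)
    linarith
  have h1 : ∑ u : Z → Fin w, Real.exp ((∑ z, (F z (u z) : ℝ)) / (2 * d)) =
      ∏ z, ∑ c, Real.exp ((F z c : ℝ) / (2 * d)) := by
    rw [Finset.prod_univ_sum, Fintype.piFinset_univ]
    refine Finset.sum_congr rfl fun u _ => ?_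
    rw [Finset.sum_div, Real.exp_sum]
  rw [h1]
  have h2 : ∀ z, ∑ c, Real.exp ((F z c : ℝ) / (2 * d)) ≤
      w * Real.exp ((Real.exp (1 / 2) - 1) * ((∑ c, (F z c : ℝ)) / (w * d))) := by
    intro z
    calc ∑ c, Real.exp ((F z c : ℝ) / (2 * d))
        ≤ ∑ c, (1 + (Real.exp (1 / 2) - 1) * ((F z c : ℝ) / d)) :=
          Finset.sum_le_sum fun c _ => exp_chord hd' (by positivity) (by exact_mod_cast hF z c)
      _ = w * (1 + (Real.exp (1 / 2) - 1) * ((∑ c, (F z c : ℝ)) / (w * d))) := by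
          rw [Finset.sum_add_distrib, ← Finset.mul_sum, ← Finset.sum_div]
          simp only [Finset.sum_const, Finset.card_univ, Fintype.card_fin, nsmul_eq_mul, mul_one]
          field_simp
      _ ≤ w * Real.exp ((Real.exp (1 / 2) - 1) * ((∑ c, (F z c : ℝ)) / (w * d))) := by
          apply mul_le_mul_of_nonneg_left _ hw'.le
          rw [add_comm]
          exact Real.add_one_le_exp _
  calc ∏ z, ∑ c, Real.exp ((F z c : ℝ) / (2 * d))
      ≤ ∏ z, (w * Real.exp ((Real.exp (1 / 2) - 1) * ((∑ c, (F z c : ℝ)) / (w * d)))) :=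
        Finset.prod_le_prod (fun z _ => Finset.sum_nonneg fun c _ => (Real.exp_pos _).le)
          fun z _ => h2 z
    _ = (w : ℝ) ^ Fintype.card Z *
        Real.exp ((Real.exp (1 / 2) - 1) * ((∑ z, ∑ c, (F z c : ℝ)) / (w * d))) := by
        rw [Finset.prod_mul_distrib, Finset.prod_const, Finset.card_univ, ← Real.exp_sum,
          ← Finset.mul_sum, ← Finset.sum_div]
    _ ≤ _ := by
        apply mul_le_mul_of_nonneg_left _ (by positivity)
        apply Real.exp_le_exp.mpr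
        apply mul_le_mul_of_nonneg_left _ he
        exact div_le_div_of_nonneg_right hW (by positivity)

/-- Few choices are bad for one matrix. -/
lemma bad_bound {Z : Type*} [Fintype Z] [DecidableEq Z] {w : ℕ} (hw : 0 < w) (d : ℕ) (hd : 0 < d)
    (F : Z → Fin w → ℕ) (hF : ∀ z c, F z c ≤ d) (m : ℕ)
    (hW : ∑ z, ∑ c, (F z c : ℝ) ≤ (9 / 16 * m) * (w * d)) :
    (((univ : Finset (Z → Fin w)).filter fun u => 7 * d * m < 8 * ∑ z, F z (u z)).card : ℝ) ≤
      (w : ℝ) ^ Fintype.card Z * (15 / 16) ^ m := by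
  have hd' : (0 : ℝ) < d := by exact_mod_cast hd
  have hw' : (0 : ℝ) < w := by exact_mod_cast hw
  have h1 := moment_bound hw d hd F hF _ hW
  rw [mul_div_cancel_right₀ _ (by positivity : (w * d : ℝ) ≠ 0)] at h1
  have h2 : (((univ : Finset (Z → Fin w)).filter fun u => 7 * d * m < 8 * ∑ z, F z (u z)).card : ℝ) *
      Real.exp (7 / 16 * m) ≤ ∑ u : Z → Fin w, Real.exp ((∑ z, (F z (u z) : ℝ)) / (2 * d)) := by
    rw [← nsmul_eq_mul, ← Finset.sum_const]
    refine (Finset.sum_le_sum (g := fun u : Z → Fin w => Real.exp ((∑ z, (F z (u z) : ℝ)) / (2 * d)))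
      fun u hu => ?_).trans (Finset.sum_le_sum_of_subset_of_nonneg (Finset.filter_subset _ _)
        fun u _ _ => (Real.exp_pos _).le)
    apply Real.exp_le_exp.mpr
    rw [mem_filter] at hu
    have h3 : (7 * d * m : ℝ) < 8 * ∑ z, (F z (u z) : ℝ) := by exact_mod_cast hu.2
    rw [le_div_iff₀ (by positivity)]
    linarith
  have h3 : Real.exp ((Real.exp (1 / 2) - 1) * (9 / 16 * m)) ≤ Real.exp (7 / 16 * m) * (15 / 16) ^ m := by
    have h4 : Real.exp (1 / 2) ≤ 1.6592 := by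
      have h5 : Real.exp (1 / 2) ^ 2 = Real.exp 1 := by
        rw [← Real.exp_nat_mul]; norm_num
      have h6 := Real.exp_one_lt_d9
      rw [← h5] at h6
      by_contra hcon
      rw [not_le] at hcon
      have : (1.6592 : ℝ) ^ 2 < Real.exp (1 / 2) ^ 2 := by
        apply pow_lt_pow_left₀ hcon (by norm_num) (by norm_num)
      norm_num at this h6 ⊢
      linarith
    have h7 : Real.exp (-(1 / 15 : ℝ)) ≤ 15 / 16 := by
      rw [Real.exp_neg]
      have h8 : (16 / 15 : ℝ) ≤ Real.exp (1 / 15) := by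
        have := Real.add_one_le_exp (1 / 15 : ℝ)
        linarith
      calc (Real.exp (1 / 15))⁻¹ ≤ (16 / 15 : ℝ)⁻¹ := inv_anti₀ (by norm_num) h8
        _ = 15 / 16 := by norm_num
    calc Real.exp ((Real.exp (1 / 2) - 1) * (9 / 16 * m))
        ≤ Real.exp (7 / 16 * m + m * (-(1 / 15 : ℝ))) := by
          apply Real.exp_le_exp.mpr
          have hm : (0 : ℝ) ≤ m := by positivity
          nlinarith
      _ = Real.exp (7 / 16 * m) * Real.exp (-(1 / 15 : ℝ)) ^ m := by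
          rw [Real.exp_add, ← Real.exp_nat_mul]
      _ ≤ Real.exp (7 / 16 * m) * (15 / 16) ^ m := by
          apply mul_le_mul_of_nonneg_left _ (Real.exp_pos _).le
          exact pow_le_pow_left₀ (Real.exp_pos _).le h7 m
  have h9 : (((univ : Finset (Z → Fin w)).filter fun u => 7 * d * m < 8 * ∑ z, F z (u z)).card : ℝ) *
      Real.exp (7 / 16 * m) ≤ ((w : ℝ) ^ Fintype.card Z * (15 / 16) ^ m) * Real.exp (7 / 16 * m) := by
    calc _ ≤ _ := h2
      _ ≤ _ := h1
      _ ≤ (w : ℝ) ^ Fintype.card Z * (Real.exp (7 / 16 * m) * (15 / 16) ^ m) :=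
          mul_le_mul_of_nonneg_left h3 (by positivity)
      _ = _ := by ring
  exact le_of_mul_le_mul_right h9 (Real.exp_pos _)

/-- The common part of the exact and the approximate version. -/
theorem avg_core {K : Type*} {n t k : ℕ} (hk : 1 ≤ k) (ht : 1 ≤ t)
    (D : Fin t → RowFun K n) (hsum : ∀ s, ∑ j, (D s).rd j ≤ k * n)
    (hch : ∀ m, 16 ^ k * m ≤ n → ∀ (ρ : Fin m ⊕ Fin m → Fin n), Function.Injective ρ →
      ∀ (col : Fin m × Fin (2 ^ (4 * k)) → Fin n), Function.Injective col → ∀ B : ℕ,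
      (∀ s, 2 ^ (∑ z, min ((D s).rd (ρ z)) (4 * k)) ≤ B) → 2 ^ (4 * k * m) ≤ t * B) :
    (16 / 15 : ℝ) ^ (n / 16 ^ k) ≤ t := by
  classical
  obtain ⟨m, hm⟩ : ∃ m, m = n / 16 ^ k := ⟨_, rfl⟩
  rw [← hm]
  rcases Nat.eq_zero_or_pos m with h0 | hmpos
  · rw [h0, pow_zero]
    exact_mod_cast ht
  have hq : 16 ^ k * m ≤ n := by
    rw [hm]; exact Nat.mul_div_le n _
  have h16 : 16 ≤ 16 ^ k := by
    calc 16 = 16 ^ 1 := by norm_num
      _ ≤ 16 ^ k := Nat.pow_le_pow_right (by norm_num) hk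
  have h16m : 16 * m ≤ n := (Nat.mul_le_mul_right m h16).trans hq
  obtain ⟨w, hw⟩ : ∃ w, w = n / (2 * m) := ⟨_, rfl⟩
  have hw8 : 8 ≤ w := by
    rw [hw, Nat.le_div_iff_mul_le (by omega)]
    omega
  have hwn : 2 * m * w ≤ n := by
    rw [hw]; exact Nat.mul_div_le n _
  have hnw : n < 2 * m * (w + 1) := by
    rw [hw]; exact Nat.lt_mul_div_succ n (by omega)
  have hrow : Fintype.card ((Fin m ⊕ Fin m) × Fin w) ≤ Fintype.card (Fin n) := by
    rw [Fintype.card_prod, Fintype.card_sum, Fintype.card_fin, Fintype.card_fin, Fintype.card_fin,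
      ← two_mul]
    exact hwn
  obtain ⟨row⟩ := Function.Embedding.nonempty_of_card_le hrow
  have hcol : Fintype.card (Fin m × Fin (2 ^ (4 * k))) ≤ Fintype.card (Fin n) := by
    rw [Fintype.card_prod, Fintype.card_fin, Fintype.card_fin, Fintype.card_fin, pow_mul,
      mul_comm]
    exact hq
  obtain ⟨col⟩ := Function.Embedding.nonempty_of_card_le hcol
  by_contra hlt
  rw [not_le] at hlt
  -- the cost function
  let F : Fin t → (Fin m ⊕ Fin m) → Fin w → ℕ := fun s z c => min ((D s).rd (row (z, c))) (4 * k)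
  have hF : ∀ s z c, F s z c ≤ 4 * k := fun s z c => min_le_right _ _
  have hW : ∀ s, ∑ z, ∑ c, (F s z c : ℝ) ≤ (9 / 16 * m) * (w * ((4 * k : ℕ) : ℝ)) := by
    intro s
    have h1 : ∑ z, ∑ c, F s z c ≤ k * n := by
      calc ∑ z, ∑ c, F s z c ≤ ∑ z, ∑ c, (D s).rd (row (z, c)) :=
            Finset.sum_le_sum fun z _ => Finset.sum_le_sum fun c _ => min_le_left _ _
        _ = ∑ x : (Fin m ⊕ Fin m) × Fin w, (D s).rd (row x) := by rw [Fintype.sum_prod_type]
        _ = ∑ j ∈ univ.map row, (D s).rd j := by rw [Finset.sum_map]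
        _ ≤ ∑ j, (D s).rd j := Finset.sum_le_sum_of_subset (Finset.subset_univ _)
        _ ≤ k * n := hsum s
    have h2 : (∑ z, ∑ c, (F s z c : ℝ)) ≤ k * n := by exact_mod_cast h1
    have h3 : (n : ℝ) ≤ 2 * m * (w + 1) := by exact_mod_cast hnw.le
    have h4 : (8 : ℝ) ≤ w := by exact_mod_cast hw8
    have hk0 : (0 : ℝ) ≤ k := by positivity
    have hm0 : (0 : ℝ) ≤ m := by positivity
    have hkm : (0 : ℝ) ≤ k * m := by positivity
    push_cast
    calc (∑ z, ∑ c, (F s z c : ℝ)) ≤ k * n := h2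
      _ ≤ k * (2 * m * (w + 1)) := mul_le_mul_of_nonneg_left h3 hk0
      _ = (k * m) * (2 * w + 2) := by ring
      _ ≤ (k * m) * (9 / 4 * w) := mul_le_mul_of_nonneg_left (by linarith) hkm
      _ = 9 / 16 * m * (w * (4 * k)) := by ring
  have hbad := fun s => bad_bound (by omega : 0 < w) (4 * k) (by omega) (F s) (hF s) m (hW s)
  -- some choice is good for all matrices
  have hgood : ∃ u : (Fin m ⊕ Fin m) → Fin w, ∀ s, 8 * ∑ z, F s z (u z) ≤ 7 * (4 * k) * m := by
    by_contra hcon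
    push Not at hcon
    have h1 : (univ : Finset ((Fin m ⊕ Fin m) → Fin w)) ⊆ (univ : Finset (Fin t)).biUnion
        fun s => univ.filter fun u => 7 * (4 * k) * m < 8 * ∑ z, F s z (u z) := by
      intro u _
      obtain ⟨s, hs⟩ := hcon u
      rw [mem_biUnion]
      exact ⟨s, mem_univ _, by rw [mem_filter]; exact ⟨mem_univ _, hs⟩⟩
    have h2 := (Finset.card_le_card h1).trans Finset.card_biUnion_le
    have h3 : ((w : ℝ) ^ Fintype.card (Fin m ⊕ Fin m)) ≤
        ∑ s : Fin t, (w : ℝ) ^ Fintype.card (Fin m ⊕ Fin m) * (15 / 16) ^ m := by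
      refine le_trans ?_ (Finset.sum_le_sum fun s _ => hbad s)
      rw [Finset.card_univ, Fintype.card_fun, Fintype.card_fin] at h2
      exact_mod_cast h2
    rw [Finset.sum_const, Finset.card_univ, Fintype.card_fin, nsmul_eq_mul] at h3
    have hwp : (0 : ℝ) < (w : ℝ) ^ Fintype.card (Fin m ⊕ Fin m) := by
      have : (0 : ℝ) < w := by exact_mod_cast (by omega : 0 < w)
      positivity
    have h4 : (1 : ℝ) ≤ t * (15 / 16) ^ m := by
      have : (w : ℝ) ^ Fintype.card (Fin m ⊕ Fin m) * 1 ≤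
          (w : ℝ) ^ Fintype.card (Fin m ⊕ Fin m) * (t * (15 / 16) ^ m) := by
        rw [mul_one]
        calc _ ≤ _ := h3
          _ = _ := by ring
      exact le_of_mul_le_mul_left this hwp
    have h5 : (t : ℝ) * (15 / 16) ^ m < (16 / 15) ^ m * (15 / 16) ^ m :=
      mul_lt_mul_of_pos_right hlt (by positivity)
    rw [← mul_pow] at h5
    norm_num at h5
    norm_num at h4
    linarith
  obtain ⟨u, hu⟩ := hgood
  have hC : ∀ s, ∑ z, F s z (u z) ≤ (7 * (4 * k) * m) / 8 := by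
    intro s
    rw [Nat.le_div_iff_mul_le (by norm_num)]
    have := hu s
    omega
  have hρ : Function.Injective fun z => row (z, u z) := by
    intro a b hab
    have := row.injective hab
    exact (Prod.mk.injEq _ _ _ _ ▸ this).1
  have hfin := hch m hq (fun z => row (z, u z)) hρ col col.injective
    (2 ^ ((7 * (4 * k) * m) / 8)) fun s => Nat.pow_le_pow_right (by norm_num) (hC s)
  -- final arithmetic
  obtain ⟨C, hCdef⟩ : ∃ C, C = (7 * (4 * k) * m) / 8 := ⟨_, rfl⟩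
  rw [← hCdef] at hfin
  have h2C : 2 * C ≤ 7 * (k * m) := by
    have : 8 * C ≤ 7 * (4 * k) * m := by rw [hCdef]; exact Nat.mul_div_le _ _
    have e : 7 * (4 * k) * m = 28 * (k * m) := by ring
    omega
  have h6 : (2 ^ (4 * k * m)) ^ 2 ≤ (t * 2 ^ C) ^ 2 := Nat.pow_le_pow_left hfin 2
  have h7 : 2 ^ (7 * (k * m)) * 2 ^ (k * m) ≤ 2 ^ (7 * (k * m)) * t ^ 2 := by
    calc 2 ^ (7 * (k * m)) * 2 ^ (k * m) = (2 ^ (4 * k * m)) ^ 2 := by
          rw [← pow_add, ← pow_mul]; congr 1; ring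
      _ ≤ (t * 2 ^ C) ^ 2 := h6
      _ = t ^ 2 * 2 ^ (2 * C) := by rw [mul_pow, ← pow_mul, mul_comm C 2]
      _ ≤ t ^ 2 * 2 ^ (7 * (k * m)) :=
          Nat.mul_le_mul_left _ (Nat.pow_le_pow_right (by norm_num) h2C)
      _ = _ := by ring
  have h8 : 2 ^ (k * m) ≤ t ^ 2 := Nat.le_of_mul_le_mul_left h7 (by positivity)
  have h9 : 2 ^ m ≤ t ^ 2 :=
    (Nat.pow_le_pow_right (by norm_num) (by nlinarith)).trans h8
  have h10 : ((2 : ℝ)) ^ m ≤ (t : ℝ) ^ 2 := by exact_mod_cast h9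
  have h11 : (t : ℝ) ^ 2 < ((16 / 15 : ℝ) ^ m) ^ 2 :=
    pow_lt_pow_left₀ hlt (by positivity) (by norm_num)
  have h12 : ((16 / 15 : ℝ) ^ m) ^ 2 ≤ 2 ^ m := by
    rw [← pow_mul, mul_comm, pow_mul]
    apply pow_le_pow_left₀ (by norm_num)
    norm_num
  linarith

/-- If the matrices use at most `k n` rows in total each, there are exponentially many. -/
theorem avg_bound {K : Type*} [Field K] [CharZero K] {n t k : ℕ} (hk : 1 ≤ k)
    (D : Fin t → RowFun K n) (hsum : ∀ s, ∑ j, (D s).rd j ≤ k * n)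
    (h : ∀ X, ∑ s, ((D s).mat X).det = (numPM X : K)) :
    (16 / 15 : ℝ) ^ (n / 16 ^ k) ≤ t := by
  have ht : 1 ≤ t := by
    by_contra h0
    have h0 : t = 0 := by omega
    subst h0
    have h1 := h (fun _ _ => true)
    rw [Finset.univ_eq_empty, Finset.sum_empty] at h1
    have h2 : numPM (fun (_ _ : Fin n) => true) = 0 := by exact_mod_cast h1.symm
    unfold numPM at h2
    rw [Fintype.card_eq_zero_iff] at h2
    exact h2.false ⟨Equiv.refl _, fun _ => rfl⟩
  refine avg_core hk ht D hsum fun m _ ρ hρ col hcol B hB => ?_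
  exact choice_bound (by omega) D h ρ hρ col hcol B hB

lemma numPM_true (n : ℕ) : numPM (fun (_ _ : Fin n) => true) = n.factorial := by
  unfold numPM
  have : Fintype.card {σ : Equiv.Perm (Fin n) // ∀ i : Fin n, (fun (_ _ : Fin n) => true) i (σ i) = true} =
      Fintype.card (Equiv.Perm (Fin n)) := by
    apply Fintype.card_congr
    exact Equiv.subtypeUnivEquiv fun _ _ => rfl
  rw [this, Fintype.card_perm, Fintype.card_fin]

lemma pow_aux (k : ℕ) : 1 + 4 * k ≤ 16 ^ k := by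
  induction k with
  | zero => norm_num
  | succ k ih =>
    rw [pow_succ]
    omega

/-- Approximate version of `avg_bound`. -/
theorem avg_bound_approx {n t k : ℕ} (hk : 1 ≤ k)
    (D : Fin t → RowFun ℂ n) (hsum : ∀ s, ∑ j, (D s).rd j ≤ k * n) (ε : ℝ)
    (hε : 2 ^ n * ε < (n - 2 * (n / 5)).factorial)
    (h : ∀ X, ‖∑ s, ((D s).mat X).det - (numPM X : ℂ)‖ ≤ ε) :
    (16 / 15 : ℝ) ^ (n / 16 ^ k) ≤ t := by
  have hε0 : 0 ≤ ε := (norm_nonneg _).trans (h (fun _ _ => true))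
  have h2n : (1 : ℝ) ≤ 2 ^ n := one_le_pow₀ (by norm_num)
  have ht : 1 ≤ t := by
    by_contra h0
    have h0 : t = 0 := by omega
    subst h0
    have h1 := h (fun _ _ => true)
    rw [Finset.univ_eq_empty, Finset.sum_empty, numPM_true, zero_sub, norm_neg,
      Complex.norm_natCast] at h1
    have h2 : ((n - 2 * (n / 5)).factorial : ℝ) ≤ n.factorial := by
      exact_mod_cast Nat.factorial_le (by omega)
    have h3 : 1 * ε ≤ 2 ^ n * ε := mul_le_mul_of_nonneg_right h2n hε0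
    linarith
  refine avg_core hk ht D hsum fun m hm ρ hρ col hcol B hB => ?_
  refine choice_bound_approx (by omega) D ε ?_ h ρ hρ col hcol B hB
  have h16 : 16 ≤ 16 ^ k := by
    calc 16 = 16 ^ 1 := by norm_num
      _ ≤ 16 ^ k := Nat.pow_le_pow_right (by norm_num) hk
  have h16m : 16 * m ≤ n := (Nat.mul_le_mul_right m h16).trans hm
  have hk16 : 1 + 4 * k ≤ 16 ^ k := pow_aux k
  have hexp : (1 + 4 * k) * m ≤ n := (Nat.mul_le_mul_right m hk16).trans hm
  have h1 : (2 * (2 ^ (4 * k) : ℕ) : ℝ) ^ m ≤ 2 ^ n := by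
    push_cast
    rw [← pow_succ', ← pow_mul]
    apply pow_le_pow_right₀ (by norm_num)
    rw [add_comm (4 * k) 1]
    exact hexp
  have h2 : ((n - 2 * (n / 5)).factorial : ℝ) ≤ (n - 2 * m).factorial := by
    exact_mod_cast Nat.factorial_le (by omega)
  calc (2 * (2 ^ (4 * k) : ℕ) : ℝ) ^ m * ε ≤ 2 ^ n * ε := mul_le_mul_of_nonneg_right h1 hε0
    _ < (n - 2 * (n / 5)).factorial := hε
    _ ≤ _ := h2

end Pool.Agent.Helper15.RD
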