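import Pool.Agent.Helper15.RD.Defs

/-!
# The block test graphs

`ρ` chooses `2 m` left vertices, `m` for each player; the `l`-th left vertex of the first player is
joined to the right vertex `col (l, x l)` only, the `l`-th left vertex of the second player to
`col (l, y l)` only, the other left vertices to everything.
-/

namespace Pool.Agent.Helper15.RD

open Finset

variable {n : ℕ}

/-- The number of permutations with prescribed values at the points `ρ z`. -/
lemma card_extend {Z : Type*} [Fintype Z] (ρ τ : Z → Fin n) (hρ : Function.Injective ρ)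
    (hτ : Function.Injective τ) :
    Fintype.card {σ : Equiv.Perm (Fin n) // ∀ z, σ (ρ z) = τ z} =
      (n - Fintype.card Z).factorial := by
  classical
  let e : {i : Fin n // i ∈ Set.range ρ} ≃ {i : Fin n // i ∈ Set.range τ} :=
    (Equiv.ofInjective ρ hρ).symm.trans (Equiv.ofInjective τ hτ)
  let π : Equiv.Perm (Fin n) := e.extendSubtype
  have hπ : ∀ z, π (ρ z) = τ z := by
    intro z
    have h1 := e.extendSubtype_apply_of_mem (ρ z) ⟨z, rfl⟩
    change π (ρ z) = _ at h1
    rw [h1]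
    have h2 : (Equiv.ofInjective ρ hρ).symm ⟨ρ z, ⟨z, rfl⟩⟩ = z :=
      Equiv.ofInjective_symm_apply hρ z
    change (((Equiv.ofInjective τ hτ) ((Equiv.ofInjective ρ hρ).symm ⟨ρ z, ⟨z, rfl⟩⟩) :
      {i : Fin n // i ∈ Set.range τ}) : Fin n) = τ z
    rw [h2]
    rfl
  have hfix : Fintype.card {σ : Equiv.Perm (Fin n) // ∀ i, ¬ (i ∉ Set.range ρ) → σ i = i} =
      (n - Fintype.card Z).factorial := by
    rw [← Fintype.card_congr (Equiv.Perm.subtypeEquivSubtypePerm (fun i : Fin n => i ∉ Set.range ρ))]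
    rw [Fintype.card_perm]
    congr 1
    rw [Fintype.card_subtype]
    have : (univ.filter fun i : Fin n => i ∉ Set.range ρ) =
        univ \ (univ.image ρ) := by
      ext i; simp
    rw [this, Finset.card_univ_sdiff, Fintype.card_fin, Finset.card_image_of_injective _ hρ,
      Finset.card_univ]
  rw [← hfix]
  apply Fintype.card_congr
  refine ⟨fun σ => ⟨σ.1.trans π.symm, ?_⟩, fun σ => ⟨σ.1.trans π, ?_⟩, ?_, ?_⟩
  · intro i hi
    rw [not_not] at hi
    obtain ⟨z, rfl⟩ := hi
    simp only [Equiv.trans_apply]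
    rw [σ.2 z, ← hπ z, Equiv.symm_apply_apply]
  · intro z
    simp only [Equiv.trans_apply]
    rw [σ.2 (ρ z) (not_not.mpr ⟨z, rfl⟩)]
    exact hπ z
  · intro σ
    apply Subtype.ext
    ext i
    simp
  · intro σ
    apply Subtype.ext
    ext i
    simp

variable {m q : ℕ}

/-- The prescribed neighbours. -/
def btgt (col : Fin m × Fin q → Fin n) (x y : Fin m → Fin q) : Fin m ⊕ Fin m → Fin n
  | .inl l => col (l, x l)
  | .inr l => col (l, y l)

/-- The block test graph. -/
def bgr (ρ : Fin m ⊕ Fin m → Fin n) (col : Fin m × Fin q → Fin n) (x y : Fin m → Fin q) :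
    Fin n → Fin n → Bool :=
  fun i j => decide (∀ z, ρ z = i → j = btgt col x y z)

lemma bgr_iff (ρ : Fin m ⊕ Fin m → Fin n) (col : Fin m × Fin q → Fin n) (x y : Fin m → Fin q)
    (σ : Equiv.Perm (Fin n)) :
    (∀ i, bgr ρ col x y i (σ i) = true) ↔ ∀ z, σ (ρ z) = btgt col x y z := by
  simp only [bgr, decide_eq_true_eq]
  constructor
  · intro h z
    exact h (ρ z) z rfl
  · rintro h i z rfl
    exact h z

lemma btgt_injective (col : Fin m × Fin q → Fin n) (hcol : Function.Injective col)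
    (x y : Fin m → Fin q) (h : ∀ l, x l ≠ y l) : Function.Injective (btgt col x y) := by
  rintro (a | a) (b | b) hab
  · have := hcol hab
    rw [Prod.mk.injEq] at this
    rw [this.1]
  · have := hcol hab
    rw [Prod.mk.injEq] at this
    obtain ⟨rfl, h2⟩ := this
    exact absurd h2 (h a)
  · have := hcol hab
    rw [Prod.mk.injEq] at this
    obtain ⟨rfl, h2⟩ := this
    exact absurd h2.symm (h a)
  · have := hcol hab
    rw [Prod.mk.injEq] at this
    rw [this.1]

lemma numPM_bgr_of_ne (ρ : Fin m ⊕ Fin m → Fin n) (hρ : Function.Injective ρ)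
    (col : Fin m × Fin q → Fin n) (hcol : Function.Injective col) (x y : Fin m → Fin q)
    (h : ∀ l, x l ≠ y l) : numPM (bgr ρ col x y) = (n - 2 * m).factorial := by
  unfold numPM
  have h1 := card_extend ρ (btgt col x y) hρ (btgt_injective col hcol x y h)
  rw [Fintype.card_sum, Fintype.card_fin, ← two_mul] at h1
  rw [← h1]
  apply Fintype.card_congr
  exact Equiv.subtypeEquivRight fun σ => bgr_iff ρ col x y σ

lemma numPM_bgr_of_eq (ρ : Fin m ⊕ Fin m → Fin n) (hρ : Function.Injective ρ)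
    (col : Fin m × Fin q → Fin n) (x y : Fin m → Fin q)
    (h : ¬ ∀ l, x l ≠ y l) : numPM (bgr ρ col x y) = 0 := by
  unfold numPM
  rw [Fintype.card_eq_zero_iff]
  constructor
  rintro ⟨σ, hσ⟩
  rw [bgr_iff] at hσ
  push Not at h
  obtain ⟨l, hl⟩ := h
  have h1 := hσ (.inl l)
  have h2 := hσ (.inr l)
  simp only [btgt] at h1 h2
  rw [hl] at h1
  have h3 := hρ (σ.injective (h1.trans h2.symm))
  exact absurd h3 (by simp)

/-- The row `i` of the block test graph does not depend on `y` unless `i` is a vertex of the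
second player. -/
lemma bgr_left (ρ : Fin m ⊕ Fin m → Fin n) (col : Fin m × Fin q → Fin n)
    (x x' y y' : Fin m → Fin q) (i : Fin n) (hx : ∀ l, ρ (.inl l) = i → x l = x' l)
    (hy : ∀ l, ρ (.inr l) = i → y l = y' l) : bgr ρ col x y i = bgr ρ col x' y' i := by
  funext j
  simp only [bgr, decide_eq_decide]
  constructor
  · rintro h (l | l) hl
    · rw [h (.inl l) hl]
      simp only [btgt, hx l hl]
    · rw [h (.inr l) hl]
      simp only [btgt, hy l hl]
  · rintro h (l | l) hl
    · rw [h (.inl l) hl]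
      simp only [btgt, hx l hl]
    · rw [h (.inr l) hl]
      simp only [btgt, hy l hl]

/-- The inverse of the matrix `J - I` of size `q`. -/
def gi (K : Type*) [Field K] (q : ℕ) (a b : Fin q) : K :=
  if a = b then 1 / ((q : K) - 1) - 1 else 1 / ((q : K) - 1)

lemma gi_sum {K : Type*} [Field K] [CharZero K] (hq : 2 ≤ q) (a b : Fin q) :
    ∑ c, (if a ≠ c then 1 else 0) * gi K q c b = if a = b then 1 else 0 := by
  classical
  have hq0 : (q : K) - 1 ≠ 0 := by
    have : (q : K) ≠ 1 := by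
      have : q ≠ 1 := by omega
      exact_mod_cast this
    exact sub_ne_zero.mpr this
  have h1 : ∀ c, (if a ≠ c then (1 : K) else 0) * gi K q c b =
      1 / ((q : K) - 1) - (if c = b then 1 else 0) - (if c = a then 1 / ((q : K) - 1) else 0) +
        (if c = a then (if a = b then 1 else 0) else 0) := by
    intro c
    by_cases hca : c = a
    · subst hca
      simp only [ne_eq, not_true_eq_false, if_false, zero_mul, if_true]
      ring
    · have hac : a ≠ c := fun h => hca h.symm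
      simp only [gi, if_pos hac, one_mul, if_neg hca]
      split_ifs <;> ring
  simp only [h1, Finset.sum_add_distrib, Finset.sum_sub_distrib, Finset.sum_ite_eq',
    Finset.mem_univ, if_true, Finset.sum_const, Finset.card_univ, Fintype.card_fin,
    nsmul_eq_mul]
  field_simp
  ring

lemma gi_tensor {K : Type*} [Field K] [CharZero K] (hq : 2 ≤ q) (x z : Fin m → Fin q) :
    ∑ y : Fin m → Fin q, (∏ l, gi K q (y l) (z l)) * (if ∀ l, x l ≠ y l then 1 else 0) =
      if x = z then 1 else 0 := by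
  classical
  have h0 : ∀ y : Fin m → Fin q, (∏ l, gi K q (y l) (z l)) * (if ∀ l, x l ≠ y l then 1 else 0) =
      ∏ l, ((if x l ≠ y l then 1 else 0) * gi K q (y l) (z l)) := by
    intro y
    rw [Finset.prod_mul_distrib, Finset.prod_ite_zero]
    simp only [Finset.mem_univ, forall_true_left, Finset.prod_const_one]
    ring
  simp only [h0]
  have := (Finset.prod_univ_sum (fun _ : Fin m => (Finset.univ : Finset (Fin q)))
    (fun l c => (if x l ≠ c then (1 : K) else 0) * gi K q c (z l))).symm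
  rw [Fintype.piFinset_univ] at this
  rw [this]
  simp only [gi_sum hq]
  rw [Finset.prod_ite_zero]
  simp only [Finset.mem_univ, forall_true_left, Finset.prod_const_one, funext_iff]

/-- The `m`-th tensor power of the matrix `J - I` of size `q ≥ 2` is nonsingular. -/
lemma neq_kernel {K : Type*} [Field K] [CharZero K] (hq : 2 ≤ q) (Φ : (Fin m → Fin q) → K)
    (h : ∀ y : Fin m → Fin q, ∑ x, (if ∀ l, x l ≠ y l then Φ x else 0) = 0) : Φ = 0 := by
  classical
  funext z
  have h2 : ∑ y : Fin m → Fin q, (∏ l, gi K q (y l) (z l)) *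
      ∑ x, (if ∀ l, x l ≠ y l then Φ x else 0) = 0 := by
    refine Finset.sum_eq_zero fun y _ => ?_
    rw [h y, mul_zero]
  have h3 : ∑ y : Fin m → Fin q, (∏ l, gi K q (y l) (z l)) *
      ∑ x, (if ∀ l, x l ≠ y l then Φ x else 0) =
      ∑ x, Φ x * ∑ y : Fin m → Fin q, (∏ l, gi K q (y l) (z l)) *
        (if ∀ l, x l ≠ y l then 1 else 0) := by
    simp only [Finset.mul_sum]
    rw [Finset.sum_comm]
    refine Finset.sum_congr rfl fun x _ => Finset.sum_congr rfl fun y _ => ?_
    split_ifs <;> ring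
  rw [h3] at h2
  simp only [gi_tensor hq] at h2
  simp only [mul_ite, mul_one, mul_zero] at h2
  rw [Finset.sum_ite_eq' Finset.univ z] at h2
  simpa using h2

lemma gi_norm (hq : 2 ≤ q) : ∑ a : Fin q, ∑ b : Fin q, ‖gi ℂ q a b‖ ≤ 2 * q := by
  have hq1 : (1 : ℝ) ≤ (q : ℝ) - 1 := by
    have : (2 : ℝ) ≤ q := by exact_mod_cast hq
    linarith
  have hpos : (0 : ℝ) < (q : ℝ) - 1 := by linarith
  have e1 : (1 / ((q : ℂ) - 1)) = ((1 / ((q : ℝ) - 1) : ℝ) : ℂ) := by push_cast; ring
  have e2 : (1 / ((q : ℂ) - 1) - 1) = ((1 / ((q : ℝ) - 1) - 1 : ℝ) : ℂ) := by push_cast; ring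
  have hle : 1 / ((q : ℝ) - 1) ≤ 1 := by
    rw [div_le_one hpos]; exact hq1
  have h1 : ∀ a b : Fin q, ‖gi ℂ q a b‖ ≤
      1 / ((q : ℝ) - 1) + (if a = b then 1 - 2 * (1 / ((q : ℝ) - 1)) else 0) := by
    intro a b
    unfold gi
    split_ifs with h
    · rw [e2, Complex.norm_real, Real.norm_eq_abs, abs_of_nonpos (by linarith)]
      linarith
    · rw [e1, Complex.norm_real, Real.norm_eq_abs, abs_of_nonneg (by positivity)]
      linarith
  calc ∑ a : Fin q, ∑ b : Fin q, ‖gi ℂ q a b‖
      ≤ ∑ a : Fin q, ∑ b : Fin q,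
        (1 / ((q : ℝ) - 1) + (if a = b then 1 - 2 * (1 / ((q : ℝ) - 1)) else 0)) :=
        Finset.sum_le_sum fun a _ => Finset.sum_le_sum fun b _ => h1 a b
    _ = q * (q * (1 / ((q : ℝ) - 1)) + (1 - 2 * (1 / ((q : ℝ) - 1)))) := by
        simp only [Finset.sum_add_distrib, Finset.sum_ite_eq, Finset.mem_univ, if_true,
          Finset.sum_const, Finset.card_univ, Fintype.card_fin, nsmul_eq_mul]
        ring
    _ ≤ q * 2 := by
        apply mul_le_mul_of_nonneg_left _ (by positivity)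
        have : (q : ℝ) * (1 / ((q : ℝ) - 1)) = 1 + 1 / ((q : ℝ) - 1) := by
          field_simp
          ring
        rw [this]
        have : 0 ≤ 1 / ((q : ℝ) - 1) := by positivity
        linarith
    _ = 2 * q := by ring

/-- Robust version over the complex numbers. -/
lemma neq_kernel_robust (hq : 2 ≤ q) (v ε : ℝ) (hv : 0 < v) (hε : 0 ≤ ε)
    (hvε : (2 * q : ℝ) ^ m * ε < v)
    (F : (Fin m → Fin q) → (Fin m → Fin q) → ℂ)
    (hF : ∀ x y, ‖F x y - (if ∀ l, x l ≠ y l then (v : ℂ) else 0)‖ ≤ ε)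
    (Φ : (Fin m → Fin q) → ℂ) (h : ∀ y, ∑ x, Φ x * F x y = 0) : Φ = 0 := by
  classical
  obtain ⟨S, hS⟩ : ∃ S : ℝ, S = ∑ x, ‖Φ x‖ := ⟨_, rfl⟩
  have hS0 : 0 ≤ S := by rw [hS]; exact Finset.sum_nonneg fun x _ => norm_nonneg _
  -- the error terms
  have h1 : ∀ y : Fin m → Fin q,
      ‖∑ x, Φ x * (if ∀ l, x l ≠ y l then (v : ℂ) else 0)‖ ≤ ε * S := by
    intro y
    have e : ∑ x, Φ x * (if ∀ l, x l ≠ y l then (v : ℂ) else 0) =
        - ∑ x, Φ x * (F x y - (if ∀ l, x l ≠ y l then (v : ℂ) else 0)) := by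
      simp only [mul_sub, Finset.sum_sub_distrib, h y]
      ring
    rw [e, norm_neg]
    refine (norm_sum_le _ _).trans ?_
    rw [hS, Finset.mul_sum]
    refine Finset.sum_le_sum fun x _ => ?_
    rw [norm_mul, mul_comm]
    exact mul_le_mul_of_nonneg_right (hF x y) (norm_nonneg _)
  have h2 : ∀ z, v * ‖Φ z‖ ≤ (∑ y : Fin m → Fin q, ∏ l, ‖gi ℂ q (y l) (z l)‖) * (ε * S) := by
    intro z
    have e : (v : ℂ) * Φ z = ∑ y : Fin m → Fin q, (∏ l, gi ℂ q (y l) (z l)) *
        ∑ x, Φ x * (if ∀ l, x l ≠ y l then (v : ℂ) else 0) := by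
      have h3 : ∑ y : Fin m → Fin q, (∏ l, gi ℂ q (y l) (z l)) *
          ∑ x, Φ x * (if ∀ l, x l ≠ y l then (v : ℂ) else 0) =
          ∑ x, ((v : ℂ) * Φ x) * ∑ y : Fin m → Fin q, (∏ l, gi ℂ q (y l) (z l)) *
            (if ∀ l, x l ≠ y l then 1 else 0) := by
        simp only [Finset.mul_sum]
        rw [Finset.sum_comm]
        refine Finset.sum_congr rfl fun x _ => Finset.sum_congr rfl fun y _ => ?_
        split_ifs <;> ring
      rw [h3]
      simp only [gi_tensor hq]
      simp only [mul_ite, mul_one, mul_zero]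
      rw [Finset.sum_ite_eq' Finset.univ z]
      simp
    have e2 : v * ‖Φ z‖ = ‖(v : ℂ) * Φ z‖ := by
      rw [norm_mul, Complex.norm_real, Real.norm_eq_abs, abs_of_pos hv]
    rw [e2, e, Finset.sum_mul]
    refine (norm_sum_le _ _).trans (Finset.sum_le_sum fun y _ => ?_)
    rw [norm_mul, norm_prod]
    exact mul_le_mul_of_nonneg_left (h1 y) (Finset.prod_nonneg fun l _ => norm_nonneg _)
  have h3 : ∑ z : Fin m → Fin q, ∑ y : Fin m → Fin q, ∏ l, ‖gi ℂ q (y l) (z l)‖ ≤
      (2 * q : ℝ) ^ m := by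
    have e : ∑ z : Fin m → Fin q, ∑ y : Fin m → Fin q, ∏ l, ‖gi ℂ q (y l) (z l)‖ =
        ∏ _l : Fin m, ∑ b : Fin q, ∑ a : Fin q, ‖gi ℂ q a b‖ := by
      rw [Finset.prod_univ_sum, Fintype.piFinset_univ]
      refine Finset.sum_congr rfl fun z _ => ?_
      rw [Finset.prod_univ_sum, Fintype.piFinset_univ]
    rw [e, Finset.prod_const, Finset.card_univ, Fintype.card_fin]
    apply pow_le_pow_left₀ (Finset.sum_nonneg fun a _ => Finset.sum_nonneg fun b _ => norm_nonneg _)
    rw [Finset.sum_comm]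
    exact gi_norm hq
  have h4 : v * S ≤ ((2 * q : ℝ) ^ m * ε) * S := by
    calc v * S = ∑ z, v * ‖Φ z‖ := by rw [hS, Finset.mul_sum]
      _ ≤ ∑ z : Fin m → Fin q, (∑ y : Fin m → Fin q, ∏ l, ‖gi ℂ q (y l) (z l)‖) * (ε * S) :=
          Finset.sum_le_sum fun z _ => h2 z
      _ = (∑ z : Fin m → Fin q, ∑ y : Fin m → Fin q, ∏ l, ‖gi ℂ q (y l) (z l)‖) * (ε * S) := by
          rw [Finset.sum_mul]
      _ ≤ (2 * q : ℝ) ^ m * (ε * S) := mul_le_mul_of_nonneg_right h3 (by positivity)
      _ = _ := by ring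
  have hSz : S = 0 := by
    by_contra hne
    have hSpos : 0 < S := lt_of_le_of_ne hS0 (Ne.symm hne)
    have := mul_lt_mul_of_pos_right hvε hSpos
    linarith
  rw [hSz] at hS
  have h5 := (Finset.sum_eq_zero_iff_of_nonneg fun x _ => norm_nonneg (Φ x)).mp hS.symm
  funext x
  exact norm_eq_zero.mp (h5 x (Finset.mem_univ _))

end Pool.Agent.Helper15.RD
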