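import Mathlib

/-!
# Row-local determinants

`numPM X` is the number of perfect matchings of the bipartite graph with adjacency matrix `X`
(the permanent of the 0-1 matrix `X`).  A `RowLocal K n k` is a square matrix of any size over `K`
which depends on a 0-1 matrix `X` with `n` rows, such that every row of the matrix is an arbitrary
function of at most one row of `X`, and each row of `X` is used by at most `k` rows of the matrix.
-/

namespace Pool.Agent.Helper15.RD

/-- The number of perfect matchings of the bipartite graph with adjacency matrix `X`:
permutations `σ` with `X i (σ i)` true for all `i`. -/
def numPM {n : ℕ} (X : Fin n → Fin n → Bool) : ℕ :=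
  Fintype.card {σ : Equiv.Perm (Fin n) // ∀ i, X i (σ i) = true}

/-- A square matrix of any size whose rows are arbitrary functions of at most one row of `X`,
each row of `X` being used by at most `k` rows of the matrix. -/
structure RowLocal (K : Type*) (n k : ℕ) where
  /-- the size of the matrix -/
  size : ℕ
  /-- the matrix attached to the 0-1 matrix `X` -/
  mat : (Fin n → Fin n → Bool) → Matrix (Fin size) (Fin size) K
  /-- the row of `X` on which the `i`-th row of the matrix depends (`none`: constant row) -/
  owner : Fin size → Option (Fin n)
  /-- the `i`-th row of the matrix is a function of the row `owner i` of `X` alone -/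
  loc : ∀ (i : Fin size) (X Y : Fin n → Fin n → Bool),
    (∀ j, owner i = some j → X j = Y j) → mat X i = mat Y i
  /-- each row of `X` is used by at most `k` rows of the matrix -/
  reads : ∀ j : Fin n, (Finset.univ.filter fun i => owner i = some j).card ≤ k

end Pool.Agent.Helper15.RD
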