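import Mathlib

/-!
# Robust nonsingularity of the disjointness matrix of the m-subsets of an n-set, 5 m <= n
-/

namespace Pool.Agent.Helper15.RD

open Finset

/-- The `m`-subsets of `Fin n`. -/
abbrev Sub (n m : ℕ) := {J : Finset (Fin n) // J.card = m}

variable {K : Type*} [Field K]

/-- Sum of `Φ` over the `m`-sets disjoint from `T`. -/
noncomputable def ff {n m : ℕ} (Φ : Sub n m → K) (T : Finset (Fin n)) : K :=
  ∑ J : Sub n m, if Disjoint J.1 T then Φ J else 0

lemma ff_step {n m : ℕ} (Φ : Sub n m → K) (T : Finset (Fin n)) :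
    ∑ x ∈ univ \ T, ff Φ (insert x T) = ((n - T.card - m : ℕ) : K) * ff Φ T := by
  classical
  unfold ff
  rw [Finset.sum_comm, Finset.mul_sum]
  refine Finset.sum_congr rfl fun J _ => ?_
  by_cases hd : Disjoint J.1 T
  · have h1 : ∀ x ∈ univ \ T, (if Disjoint J.1 (insert x T) then Φ J else 0) =
        if x ∉ J.1 then Φ J else 0 := by
      intro x _
      have : Disjoint J.1 (insert x T) ↔ x ∉ J.1 := by
        rw [Finset.disjoint_insert_right]
        exact ⟨fun h => h.1, fun h => ⟨h, hd⟩⟩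
      simp only [this]
    rw [Finset.sum_congr rfl h1, ← Finset.sum_filter, Finset.sum_const, nsmul_eq_mul, if_pos hd]
    congr 2
    have h2 : (univ \ T).filter (fun x => x ∉ J.1) = univ \ (T ∪ J.1) := by
      ext x
      simp only [mem_filter, mem_sdiff, mem_univ, true_and, mem_union, not_or]
    rw [h2, Finset.card_univ_sdiff, Finset.card_union_of_disjoint hd.symm, Fintype.card_fin, J.2]
    omega
  · have h1 : ∀ x ∈ univ \ T, (if Disjoint J.1 (insert x T) then Φ J else 0) = 0 := by
      intro x _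
      rw [if_neg]
      intro h
      exact hd (h.mono_right (Finset.subset_insert _ _))
    rw [Finset.sum_congr rfl h1, Finset.sum_const_zero, if_neg hd, mul_zero]

lemma ff_bound {n m : ℕ} (h5 : 5 * m ≤ n) (Φ : Sub n m → ℂ) (δ : ℝ) (hδ : 0 ≤ δ)
    (h : ∀ T : Finset (Fin n), T.card = m → ‖ff Φ T‖ ≤ δ) :
    ∀ i ≤ m, ∀ T : Finset (Fin n), T.card = m - i → ‖ff Φ T‖ ≤ (4 / 3 : ℝ) ^ i * δ := by
  intro i
  induction i with
  | zero =>
    intro _ T hT
    simpa using h T (by simpa using hT)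
  | succ i ih =>
    intro hi T hT
    have ih' := ih (by omega)
    have hstep := ff_step Φ T
    have hpos : 0 < n - T.card - m := by omega
    have hsum : ‖∑ x ∈ univ \ T, ff Φ (insert x T)‖ ≤ ((n - T.card : ℕ) : ℝ) * ((4 / 3 : ℝ) ^ i * δ) := by
      refine (norm_sum_le _ _).trans ?_
      have : ∀ x ∈ univ \ T, ‖ff Φ (insert x T)‖ ≤ (4 / 3 : ℝ) ^ i * δ := by
        intro x hx
        apply ih'
        rw [Finset.card_insert_of_notMem (by simpa using hx), hT]
        omega
      refine (Finset.sum_le_sum this).trans ?_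
      rw [Finset.sum_const, nsmul_eq_mul, Finset.card_univ_sdiff, Fintype.card_fin]
    rw [hstep, norm_mul, Complex.norm_natCast] at hsum
    have hcast : ((n - T.card : ℕ) : ℝ) ≤ (4 / 3 : ℝ) * ((n - T.card - m : ℕ) : ℝ) := by
      have hnat : 3 * (n - T.card) ≤ 4 * (n - T.card - m) := by omega
      have : (3 : ℝ) * ((n - T.card : ℕ) : ℝ) ≤ 4 * ((n - T.card - m : ℕ) : ℝ) := by
        exact_mod_cast hnat
      linarith
    have hposR : (0 : ℝ) < ((n - T.card - m : ℕ) : ℝ) := by exact_mod_cast hpos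
    have hD : 0 ≤ (4 / 3 : ℝ) ^ i * δ := by positivity
    have h2 : ((n - T.card - m : ℕ) : ℝ) * ‖ff Φ T‖ ≤
        ((n - T.card - m : ℕ) : ℝ) * ((4 / 3 : ℝ) ^ (i + 1) * δ) := by
      calc ((n - T.card - m : ℕ) : ℝ) * ‖ff Φ T‖ ≤ ((n - T.card : ℕ) : ℝ) * ((4 / 3 : ℝ) ^ i * δ) := hsum
        _ ≤ ((4 / 3 : ℝ) * ((n - T.card - m : ℕ) : ℝ)) * ((4 / 3 : ℝ) ^ i * δ) :=
          mul_le_mul_of_nonneg_right hcast hD
        _ = _ := by ring
    exact le_of_mul_le_mul_left h2 hposR

lemma ff_inversion {n m : ℕ} (Φ : Sub n m → K) (J₀ : Sub n m) :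
    Φ J₀ = ∑ T ∈ J₀.1.powerset, (-1 : K) ^ T.card * ff Φ T := by
  classical
  unfold ff
  simp only [Finset.mul_sum]
  rw [Finset.sum_comm]
  rw [Finset.sum_eq_single J₀]
  · have h1 : ∀ T ∈ J₀.1.powerset, ((-1 : K) ^ T.card * if Disjoint J₀.1 T then Φ J₀ else 0) =
        if T = ∅ then Φ J₀ else 0 := by
      intro T hT
      rw [mem_powerset] at hT
      by_cases hE : T = ∅
      · subst hE; simp
      · rw [if_neg hE, if_neg, mul_zero]
        intro hd
        apply hE
        rw [← Finset.subset_empty]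
        intro x hx
        exact absurd hx (Finset.disjoint_left.mp hd (hT hx))
    rw [Finset.sum_congr rfl h1, Finset.sum_ite_eq']
    simp
  · intro J _ hJ
    have h1 : ∀ T ∈ J₀.1.powerset, ((-1 : K) ^ T.card * if Disjoint J.1 T then Φ J else 0) =
        if Disjoint J.1 T then (-1 : K) ^ T.card * Φ J else 0 := by
      intro T _
      split_ifs <;> simp
    rw [Finset.sum_congr rfl h1, ← Finset.sum_filter]
    have h2 : (J₀.1.powerset).filter (fun T => Disjoint J.1 T) = (J₀.1 \ J.1).powerset := by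
      ext T
      simp only [mem_filter, mem_powerset, Finset.subset_sdiff]
      exact ⟨fun h => ⟨h.1, h.2.symm⟩, fun h => ⟨h.1, h.2.symm⟩⟩
    rw [h2, ← Finset.sum_mul]
    have hne : (J₀.1 \ J.1).Nonempty := by
      rw [Finset.sdiff_nonempty]
      intro hsub
      apply hJ
      apply Subtype.ext
      exact (Finset.eq_of_subset_of_card_le hsub (by rw [J.2, J₀.2])).symm
    have h3 := Finset.sum_powerset_neg_one_pow_card_of_nonempty hne
    have h4 : (∑ T ∈ (J₀.1 \ J.1).powerset, (-1 : K) ^ T.card) = 0 := by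
      have := congrArg (fun z : ℤ => (z : K)) h3
      push_cast at this
      exact this
    rw [h4, zero_mul]
  · intro h
    exact absurd (mem_univ _) h

/-- Exact version, over every field of characteristic zero. -/
theorem disj_exact {n m : ℕ} [CharZero K] (h2 : 2 * m ≤ n) (Φ : Sub n m → K)
    (hΦ : ∀ J' : Sub n m, ∑ J, (if Disjoint J.1 J'.1 then Φ J else 0) = 0) : Φ = 0 := by
  classical
  have h1 : ∀ i ≤ m, ∀ T : Finset (Fin n), T.card = m - i → ff Φ T = 0 := by
    intro i
    induction i with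
    | zero =>
      intro _ T hT
      exact hΦ ⟨T, by simpa using hT⟩
    | succ i ih =>
      intro hi T hT
      have ih' := ih (by omega)
      have hstep := ff_step Φ T
      have hz : ∑ x ∈ univ \ T, ff Φ (insert x T) = 0 := by
        apply Finset.sum_eq_zero
        intro x hx
        apply ih'
        rw [Finset.card_insert_of_notMem (by simpa using hx), hT]
        omega
      rw [hz] at hstep
      have hne : ((n - T.card - m : ℕ) : K) ≠ 0 := by
        have : n - T.card - m ≠ 0 := by omega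
        exact_mod_cast this
      exact (mul_eq_zero.mp hstep.symm).resolve_left hne
  funext J₀
  rw [ff_inversion Φ J₀]
  apply Finset.sum_eq_zero
  intro T hT
  rw [mem_powerset] at hT
  have hTc : T.card ≤ m := by
    have := Finset.card_le_card hT
    rwa [J₀.2] at this
  rw [h1 (m - T.card) (by omega) T (by omega), mul_zero]

/-- A function which is almost annihilated by the disjointness matrix vanishes. -/
theorem disj_robust {n m : ℕ} (h5 : 5 * m ≤ n) (c ε : ℝ) (hc : 0 < c) (hε : 0 ≤ ε)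
    (hsmall : (n.choose m : ℝ) * (7 / 3) ^ m * ε < c)
    (G : Sub n m → Sub n m → ℂ)
    (hG : ∀ J J', ‖G J J' - if Disjoint J.1 J'.1 then (c : ℂ) else 0‖ ≤ ε)
    (Φ : Sub n m → ℂ) (hΦ : ∀ J', ∑ J, Φ J * G J J' = 0) : Φ = 0 := by
  classical
  by_contra hne
  obtain ⟨Jx, hJx⟩ : ∃ J, Φ J ≠ 0 := by
    by_contra hall
    push Not at hall
    exact hne (funext hall)
  obtain ⟨J₁, _, hmax⟩ := Finset.exists_max_image (univ : Finset (Sub n m)) (fun J => ‖Φ J‖)
    ⟨Jx, mem_univ _⟩
  set A : ℝ := ‖Φ J₁‖ with hA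
  have hApos : 0 < A := lt_of_lt_of_le (norm_pos_iff.mpr hJx) (hmax Jx (mem_univ _))
  have hcard : (Finset.univ : Finset (Sub n m)).card = n.choose m := by
    rw [Finset.card_univ]
    simp [Fintype.card_finset_len]
  have hδ0 : 0 ≤ (n.choose m : ℝ) * A * ε / c := by positivity
  have h1 : ∀ T : Finset (Fin n), T.card = m → ‖ff Φ T‖ ≤ (n.choose m : ℝ) * A * ε / c := by
    intro T hT
    have h2 : (c : ℂ) * ff Φ T =
        ∑ J : Sub n m, Φ J * ((if Disjoint J.1 T then (c : ℂ) else 0) - G J ⟨T, hT⟩) := by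
      have h3 := hΦ ⟨T, hT⟩
      simp only [mul_sub, Finset.sum_sub_distrib, h3, sub_zero]
      unfold ff
      rw [Finset.mul_sum]
      refine Finset.sum_congr rfl fun J _ => ?_
      split_ifs
      · ring
      · simp
    have h4 : c * ‖ff Φ T‖ ≤ (n.choose m : ℝ) * A * ε := by
      have h5' : ‖(c : ℂ) * ff Φ T‖ = c * ‖ff Φ T‖ := by
        rw [norm_mul, Complex.norm_real, Real.norm_of_nonneg hc.le]
      rw [← h5', h2]
      refine (norm_sum_le _ _).trans ?_
      have h6 : ∀ J ∈ (univ : Finset (Sub n m)),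
          ‖Φ J * ((if Disjoint J.1 T then (c : ℂ) else 0) - G J ⟨T, hT⟩)‖ ≤ A * ε := by
        intro J _
        rw [norm_mul]
        apply mul_le_mul (hmax J (mem_univ _)) _ (norm_nonneg _) hApos.le
        rw [norm_sub_rev]
        exact hG J ⟨T, hT⟩
      refine (Finset.sum_le_sum h6).trans ?_
      rw [Finset.sum_const, hcard, nsmul_eq_mul]
      exact le_of_eq (by ring)
    rw [le_div_iff₀ hc]
    linarith
  have h2 := ff_bound h5 Φ _ hδ0 h1
  have h3 : A ≤ (7 / 3 : ℝ) ^ m * ((n.choose m : ℝ) * A * ε / c) := by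
    have e : A = ‖∑ T ∈ J₁.1.powerset, (-1 : ℂ) ^ T.card * ff Φ T‖ := by
      rw [hA]
      exact congrArg norm (ff_inversion Φ J₁)
    refine e.le.trans ((norm_sum_le _ _).trans ?_)
    have h4 : ∀ T ∈ J₁.1.powerset, ‖(-1 : ℂ) ^ T.card * ff Φ T‖ ≤
        (4 / 3 : ℝ) ^ (m - T.card) * ((n.choose m : ℝ) * A * ε / c) := by
      intro T hT
      rw [mem_powerset] at hT
      have hTc : T.card ≤ m := by
        have := Finset.card_le_card hT
        rwa [J₁.2] at this
      rw [norm_mul, norm_pow, norm_neg, norm_one, one_pow, one_mul]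
      exact h2 (m - T.card) (by omega) T (by omega)
    refine (Finset.sum_le_sum h4).trans ?_
    rw [← Finset.sum_mul]
    apply le_of_eq
    congr 1
    have h5' := Finset.sum_pow_mul_eq_add_pow (1 : ℝ) (4 / 3) J₁.1
    rw [J₁.2] at h5'
    simp only [one_pow, one_mul] at h5'
    rw [h5']
    norm_num
  have h4 : (7 / 3 : ℝ) ^ m * ((n.choose m : ℝ) * A * ε / c) < A := by
    have : (7 / 3 : ℝ) ^ m * ((n.choose m : ℝ) * A * ε / c) =
        ((n.choose m : ℝ) * (7 / 3) ^ m * ε) * A / c := by ring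
    rw [this, div_lt_iff₀ hc, mul_comm A c]
    exact mul_lt_mul_of_pos_right hsmall hApos
  exact absurd h3 (not_le.mpr h4)

end Pool.Agent.Helper15.RD
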