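import Pool.Agent.Helper15.RD.Update

/-!
# The main theorem on sums of row-wise determinants
-/

namespace Pool.Agent.Helper15.RD

open Finset

theorem main {n k t : ℕ} (hk : 1 ≤ k) (M : Fin t → RowUpdate ℂ n)
    (hM : ∀ s, ∑ j, (M s).rk j ≤ k * n) (ε : ℝ)
    (hε : 2 ^ n * ε < (n - 2 * (n / 5)).factorial)
    (h : ∀ X : Fin n → Fin n → Bool, ‖∑ s, ((M s).mat X).det - (numPM X : ℂ)‖ ≤ ε) :
    (16 / 15 : ℝ) ^ (n / 16 ^ k) ≤ t ∧
      ((∀ s j, (M s).rk j ≤ k) → (1 + 1 / 4 ^ k : ℝ) ^ n ≤ (n + 1) * t) := by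
  have h' : ∀ X : Fin n → Fin n → Bool,
      ‖∑ s, ((M s).toFun.mat X).det - (numPM X : ℂ)‖ ≤ ε := by
    intro X
    simp only [RowUpdate.det_toFun]
    exact h X
  constructor
  · apply avg_bound_approx hk (fun s => (M s).toFun) _ ε hε h'
    intro s
    exact (Finset.sum_le_sum fun j _ => (M s).rd_toFun_le j).trans (hM s)
  · intro hr
    exact approx_bound hk
      (fun s => (M s).toFun.toLocal (k := k) fun j => ((M s).rd_toFun_le j).trans (hr s j)) ε hε h'

/-- Exact version over any field of characteristic zero. -/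
theorem main_exact {K : Type*} [Field K] [CharZero K] {n k t : ℕ} (hk : 1 ≤ k)
    (M : Fin t → RowUpdate K n) (hM : ∀ s, ∑ j, (M s).rk j ≤ k * n)
    (h : ∀ X : Fin n → Fin n → Bool, ∑ s, ((M s).mat X).det = (numPM X : K)) :
    (16 / 15 : ℝ) ^ (n / 16 ^ k) ≤ t ∧
      ((∀ s j, (M s).rk j ≤ k) → (1 + 1 / 4 ^ k : ℝ) ^ n ≤ (n + 1) * t) := by
  have h' : ∀ X : Fin n → Fin n → Bool,
      ∑ s, ((M s).toFun.mat X).det = (numPM X : K) := by
    intro X
    simp only [RowUpdate.det_toFun]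
    exact h X
  constructor
  · apply avg_bound hk (fun s => (M s).toFun) _ h'
    intro s
    exact (Finset.sum_le_sum fun j _ => (M s).rd_toFun_le j).trans (hM s)
  · intro hr
    exact exact_bound hk
      (fun s => (M s).toFun.toLocal (k := k) fun j => ((M s).rd_toFun_le j).trans (hr s j)) h'

end Pool.Agent.Helper15.RD
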