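import Pool.Agent.Helper15.RD.Defs
import Pool.Agent.Helper15.RD.Disj

/-!
# The test graphs
-/

namespace Pool.Agent.Helper15.RD

open Finset

variable {n m : ℕ}

/-- The prescribed neighbour of the left vertex `i < 2 m`. -/
def tgt (J J' : Sub n m) (i : {i : Fin n // i.1 < 2 * m}) : Fin n :=
  if h : i.1.1 < m then J.1.orderEmbOfFin J.2 ⟨i.1.1, h⟩
  else J'.1.orderEmbOfFin J'.2 ⟨i.1.1 - m, by have := i.2; omega⟩

/-- Left vertices `i < m` are joined to the `i`-th element of `J`, left vertices `m + i < 2 m` to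
the `i`-th element of `J'`, the other left vertices to everything. -/
def gr (J J' : Sub n m) : Fin n → Fin n → Bool := fun i j =>
  if h : i.1 < 2 * m then decide (j = tgt J J' ⟨i, h⟩) else true

lemma gr_left (J J₁ J₂ : Sub n m) (i : Fin n) (hi : i.1 < m) : gr J J₁ i = gr J J₂ i := by
  funext j
  have h : i.1 < 2 * m := by omega
  simp only [gr, dif_pos h, tgt, dif_pos hi]

lemma gr_right (J₁ J₂ J' : Sub n m) (i : Fin n) (hi : m ≤ i.1) : gr J₁ J' i = gr J₂ J' i := by
  funext j
  by_cases h : i.1 < 2 * m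
  · simp only [gr, dif_pos h, tgt, dif_neg (not_lt.mpr hi)]
  · simp only [gr, dif_neg h]

lemma gr_rest (J₁ J₂ J₁' J₂' : Sub n m) (i : Fin n) (hi : 2 * m ≤ i.1) :
    gr J₁ J₁' i = gr J₂ J₂' i := by
  funext j
  simp only [gr, dif_neg (not_lt.mpr hi)]

lemma gr_iff (J J' : Sub n m) (σ : Equiv.Perm (Fin n)) :
    (∀ i, gr J J' i (σ i) = true) ↔
      ∀ i : {i : Fin n // i.1 < 2 * m}, σ i.1 = tgt J J' i := by
  constructor
  · intro h i
    have := h i.1
    simp only [gr, dif_pos i.2, decide_eq_true_eq] at this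
    exact this
  · intro h i
    by_cases hi : i.1 < 2 * m
    · simp only [gr, dif_pos hi, decide_eq_true_eq]
      exact h ⟨i, hi⟩
    · simp only [gr, dif_neg hi]

lemma tgt_injective (J J' : Sub n m) (hd : Disjoint J.1 J'.1) :
    Function.Injective (tgt J J') := by
  intro a b hab
  unfold tgt at hab
  split_ifs at hab with h1 h2 h2
  · have := (J.1.orderEmbOfFin J.2).injective hab
    have h3 : a.1.1 = b.1.1 := by simpa using congrArg Fin.val this
    exact Subtype.ext (Fin.ext h3)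
  · exfalso
    have ha : J.1.orderEmbOfFin J.2 ⟨a.1.1, h1⟩ ∈ J.1 := Finset.orderEmbOfFin_mem _ _ _
    have hb : J'.1.orderEmbOfFin J'.2 ⟨b.1.1 - m, by have := b.2; omega⟩ ∈ J'.1 :=
      Finset.orderEmbOfFin_mem _ _ _
    rw [← hab] at hb
    exact Finset.disjoint_left.mp hd ha hb
  · exfalso
    have ha : J'.1.orderEmbOfFin J'.2 ⟨a.1.1 - m, by have := a.2; omega⟩ ∈ J'.1 :=
      Finset.orderEmbOfFin_mem _ _ _
    have hb : J.1.orderEmbOfFin J.2 ⟨b.1.1, h2⟩ ∈ J.1 := Finset.orderEmbOfFin_mem _ _ _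
    rw [hab] at ha
    exact Finset.disjoint_left.mp hd hb ha
  · have := (J'.1.orderEmbOfFin J'.2).injective hab
    have h3 : a.1.1 - m = b.1.1 - m := by simpa using congrArg Fin.val this
    have h4 : a.1.1 = b.1.1 := by omega
    exact Subtype.ext (Fin.ext h4)

lemma numPM_not_disjoint (hm : 2 * m ≤ n) (J J' : Sub n m) (hd : ¬ Disjoint J.1 J'.1) :
    numPM (gr J J') = 0 := by
  unfold numPM
  rw [Fintype.card_eq_zero_iff]
  constructor
  rintro ⟨σ, hσ⟩
  rw [gr_iff] at hσ
  rw [Finset.not_disjoint_iff] at hd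
  obtain ⟨x, hx, hx'⟩ := hd
  obtain ⟨a, ha⟩ : ∃ a : Fin m, J.1.orderEmbOfFin J.2 a = x := by
    have : x ∈ Set.range (J.1.orderEmbOfFin J.2) := by
      rw [Finset.range_orderEmbOfFin]; exact hx
    exact this
  obtain ⟨b, hb⟩ : ∃ b : Fin m, J'.1.orderEmbOfFin J'.2 b = x := by
    have : x ∈ Set.range (J'.1.orderEmbOfFin J'.2) := by
      rw [Finset.range_orderEmbOfFin]; exact hx'
    exact this
  have h1 := hσ ⟨⟨a.1, by have := a.2; omega⟩, by have := a.2; simp only; omega⟩
  have h2 := hσ ⟨⟨m + b.1, by have := b.2; omega⟩, by have := b.2; simp only; omega⟩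
  unfold tgt at h1 h2
  simp only [a.2, dite_true] at h1
  have hnl : ¬ (m + b.1 < m) := by omega
  simp only [hnl, dite_false] at h2
  have e1 : (⟨a.1, a.2⟩ : Fin m) = a := rfl
  rw [ha] at h1
  have e2 : (⟨m + b.1 - m, by have := b.2; omega⟩ : Fin m) = b := by
    apply Fin.ext
    simp
  rw [e2, hb] at h2
  have h3 := σ.injective (h1.trans h2.symm)
  have h4 : a.1 = m + b.1 := by simpa using congrArg Fin.val h3
  have := a.2
  omega

lemma numPM_disjoint (hm : 2 * m ≤ n) (J J' : Sub n m) (hd : Disjoint J.1 J'.1) :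
    numPM (gr J J') = (n - 2 * m).factorial := by
  classical
  have hinj := tgt_injective J J' hd
  let e : {i : Fin n // i.1 < 2 * m} ≃ {x : Fin n // x ∈ Set.range (tgt J J')} :=
    Equiv.ofInjective _ hinj
  let τ : Equiv.Perm (Fin n) := e.extendSubtype
  have hτ : ∀ i : {i : Fin n // i.1 < 2 * m}, τ i.1 = tgt J J' i := by
    intro i
    have := e.extendSubtype_apply_of_mem i.1 i.2
    exact this
  have hfix : Fintype.card {σ : Equiv.Perm (Fin n) // ∀ i, ¬ (2 * m ≤ i.1) → σ i = i} =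
      (n - 2 * m).factorial := by
    rw [← Fintype.card_congr (Equiv.Perm.subtypeEquivSubtypePerm (fun i : Fin n => 2 * m ≤ i.1))]
    rw [Fintype.card_perm]
    congr 1
    rw [Fintype.card_subtype]
    have : (univ.filter fun i : Fin n => 2 * m ≤ i.1) =
        univ \ (univ.filter fun i : Fin n => i.1 < 2 * m) := by
      ext i; simp
    rw [this, Finset.card_univ_sdiff, Fintype.card_fin]
    congr 1
    have h2 : (univ.filter fun i : Fin n => i.1 < 2 * m).card = 2 * m := by
      rw [Fin.card_filter_val_lt]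
      omega
    exact h2
  rw [← hfix]
  unfold numPM
  apply Fintype.card_congr
  refine ⟨fun σ => ⟨σ.1.trans τ.symm, ?_⟩, fun σ => ⟨σ.1.trans τ, ?_⟩, ?_, ?_⟩
  · intro i hi
    have h1 := (gr_iff J J' σ.1).mp σ.2 ⟨i, not_le.mp hi⟩
    simp only [Equiv.trans_apply]
    rw [h1, ← hτ ⟨i, not_le.mp hi⟩, Equiv.symm_apply_apply]
  · rw [gr_iff]
    intro i
    simp only [Equiv.trans_apply]
    rw [σ.2 i.1 (not_le.mpr i.2)]
    exact hτ i
  · intro σ
    apply Subtype.ext
    ext i
    simp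
  · intro σ
    apply Subtype.ext
    ext i
    simp

end Pool.Agent.Helper15.RD
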