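import Pool.Agent.Helper15.RD.Graph
import Pool.Agent.Helper15.RD.Wedge

/-!
# Assembly
-/

namespace Pool.Agent.Helper15.RD

open Finset

variable {K : Type*} {n m k : ℕ}

lemma card_owner_le (D : RowLocal K n k) (A : Finset (Fin n)) (r : Fin D.size → Prop)
    [DecidablePred r] (hr : ∀ i, r i → ∃ j ∈ A, D.owner i = some j) :
    Fintype.card {i // r i} ≤ k * A.card := by
  classical
  rw [Fintype.card_subtype]
  have h1 : (univ.filter r) ⊆ A.biUnion fun j => univ.filter fun i => D.owner i = some j := by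
    intro i hi
    rw [mem_filter] at hi
    obtain ⟨j, hj, hij⟩ := hr i hi.2
    rw [mem_biUnion]
    exact ⟨j, hj, by simp [hij]⟩
  refine (Finset.card_le_card h1).trans ((Finset.card_biUnion_le).trans ?_)
  refine (Finset.sum_le_card_nsmul A _ k fun j _ => D.reads j).trans ?_
  rw [smul_eq_mul, mul_comm]

variable [Field K]

/-- One determinant, restricted to the test graphs, has rank at most `4 ^ (k m)`. -/
lemma one_factor (_hm : 2 * m ≤ n) (D : RowLocal K n k) :
    ∃ (P : Sub n m → Finset (Fin (2 * (k * m))) → K)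
      (Q : Finset (Fin (2 * (k * m))) → Sub n m → K),
      ∀ J J', (D.mat (gr J J')).det = ∑ T, P J T * Q T J' := by
  classical
  let p : Fin D.size → Prop := fun i => ∃ j, D.owner i = some j ∧ j.1 < m
  let q : Fin D.size → Prop := fun i => ∃ j, D.owner i = some j ∧ m ≤ j.1 ∧ j.1 < 2 * m
  have hpq : ∀ i, p i → ¬ q i := by
    rintro i ⟨j, hj, hjm⟩ ⟨j', hj', hj'm, _⟩
    rw [hj] at hj'
    have : j = j' := Option.some.inj hj'
    subst this
    omega
  obtain ⟨P, Q, hPQ⟩ := det_split p q hpq (fun J J' => D.mat (gr J J'))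
    (by
      rintro i ⟨j, hj, hjm⟩ J J₁ J₂
      apply D.loc
      intro j' hj'
      rw [hj] at hj'
      have : j = j' := Option.some.inj hj'
      subst this
      exact gr_left _ _ _ _ hjm)
    (by
      rintro i ⟨j, hj, hjm, _⟩ J₁ J₂ J'
      apply D.loc
      intro j' hj'
      rw [hj] at hj'
      have : j = j' := Option.some.inj hj'
      subst this
      exact gr_right _ _ _ _ hjm)
    (by
      intro i hp hq J₁ J₂ J₁' J₂'
      apply D.loc
      intro j hj
      apply gr_rest
      by_contra hlt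
      rw [not_le] at hlt
      by_cases h : j.1 < m
      · exact hp ⟨j, hj, h⟩
      · exact hq ⟨j, hj, not_lt.mp h, hlt⟩)
  have hcp : Fintype.card {i // p i} ≤ k * m := by
    have := card_owner_le D (univ.filter fun j : Fin n => j.1 < m) p (by
      rintro i ⟨j, hj, hjm⟩
      exact ⟨j, by simp [hjm], hj⟩)
    refine this.trans (Nat.mul_le_mul_left k ?_)
    rw [Fin.card_filter_val_lt]
    exact min_le_right _ _
  have hcq : Fintype.card {i // q i} ≤ k * m := by
    have := card_owner_le D (univ.filter fun j : Fin n => m ≤ j.1 ∧ j.1 < 2 * m) q (by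
      rintro i ⟨j, hj, hjm, hjm'⟩
      exact ⟨j, by simp [hjm, hjm'], hj⟩)
    refine this.trans (Nat.mul_le_mul_left k ?_)
    have h1 : (univ.filter fun j : Fin n => m ≤ j.1 ∧ j.1 < 2 * m).card ≤
        (Finset.Ico m (2 * m)).card := by
      apply Finset.card_le_card_of_injOn (fun j => j.1)
      · intro j hj
        simp only [coe_filter, mem_univ, true_and, Set.mem_ofPred_eq] at hj
        simpa using hj
      · intro a _ b _ hab
        exact Fin.ext hab
    refine h1.trans ?_
    rw [Nat.card_Ico]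
    omega
  have hr2 : Fintype.card {i // p i} + Fintype.card {i // q i} ≤ 2 * (k * m) := by omega
  let emb : Finset (Fin (Fintype.card {i // p i} + Fintype.card {i // q i})) ↪
      Finset (Fin (2 * (k * m))) :=
    Finset.mapEmbedding (Fin.castLEEmb hr2) |>.toEmbedding
  refine ⟨fun J T => if h : ∃ T', emb T' = T then P J h.choose else 0,
    fun T J' => if h : ∃ T', emb T' = T then Q h.choose J' else 0, fun J J' => ?_⟩
  have h0 := hPQ J J'
  have h1 : ∑ T, P J T * Q T J' = ∑ T ∈ univ.map emb,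
      ((if h : ∃ T', emb T' = T then P J h.choose else 0) *
        (if h : ∃ T', emb T' = T then Q h.choose J' else 0)) := by
    rw [Finset.sum_map]
    refine Finset.sum_congr rfl fun T _ => ?_
    have hex : ∃ T', emb T' = emb T := ⟨T, rfl⟩
    rw [dif_pos hex, dif_pos hex, emb.injective hex.choose_spec]
  refine h0.trans (h1.trans ?_)
  apply Finset.sum_subset (Finset.subset_univ _)
  intro T _ hT
  have hnex : ¬ ∃ T', emb T' = T := by
    rintro ⟨T', hT'⟩
    exact hT (by rw [mem_map]; exact ⟨T', mem_univ _, hT'⟩)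
  rw [dif_neg hnex, zero_mul]

/-- If fewer than `C(n,m)` products suffice, some nonzero vector is annihilated. -/
lemma exists_kernel (hm : 2 * m ≤ n) {t : ℕ} (D : Fin t → RowLocal K n k)
    (hlt : t * 4 ^ (k * m) < n.choose m) :
    ∃ Φ : Sub n m → K, Φ ≠ 0 ∧
      ∀ J', ∑ J, Φ J * ∑ s, ((D s).mat (gr J J')).det = 0 := by
  classical
  choose P Q hPQ using fun s => one_factor hm (D s)
  let f : (Sub n m → K) →ₗ[K] (Fin t × Finset (Fin (2 * (k * m))) → K) :=
    { toFun := fun Φ x => ∑ J, Φ J * P x.1 J x.2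
      map_add' := by
        intro a b
        funext x
        simp only [Pi.add_apply, add_mul, Finset.sum_add_distrib]
      map_smul' := by
        intro c a
        funext x
        simp only [Pi.smul_apply, smul_eq_mul, RingHom.id_apply, Finset.mul_sum, mul_assoc] }
  have hcard : Fintype.card (Sub n m) = n.choose m := by
    simp [Fintype.card_finset_len]
  have hker : LinearMap.ker f ≠ ⊥ := by
    apply LinearMap.ker_ne_bot_of_finrank_lt
    rw [Module.finrank_fintype_fun_eq_card, Module.finrank_fintype_fun_eq_card, hcard,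
      Fintype.card_prod, Fintype.card_fin, Fintype.card_finset, Fintype.card_fin]
    calc t * 2 ^ (2 * (k * m)) = t * 4 ^ (k * m) := by rw [pow_mul]; norm_num
      _ < n.choose m := hlt
  obtain ⟨Φ, hΦ, hne⟩ := Submodule.exists_mem_ne_zero_of_ne_bot hker
  refine ⟨Φ, hne, fun J' => ?_⟩
  rw [LinearMap.mem_ker] at hΦ
  have h1 : ∀ s T, ∑ J, Φ J * P s J T = 0 := fun s T => congrFun hΦ (s, T)
  calc ∑ J, Φ J * ∑ s, ((D s).mat (gr J J')).det
      = ∑ J, ∑ s, ∑ T, Φ J * P s J T * Q s T J' := by
        refine Finset.sum_congr rfl fun J _ => ?_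
        rw [Finset.mul_sum]
        refine Finset.sum_congr rfl fun s _ => ?_
        rw [hPQ s J J', Finset.mul_sum]
        refine Finset.sum_congr rfl fun T _ => ?_
        ring
    _ = ∑ s, ∑ T, (∑ J, Φ J * P s J T) * Q s T J' := by
        rw [Finset.sum_comm]
        refine Finset.sum_congr rfl fun s _ => ?_
        rw [Finset.sum_comm]
        refine Finset.sum_congr rfl fun T _ => ?_
        rw [Finset.sum_mul]
    _ = 0 := by
        refine Finset.sum_eq_zero fun s _ => Finset.sum_eq_zero fun T _ => ?_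
        rw [h1, zero_mul]

/-- Exact version: the binomial inequality. -/
theorem choose_le_exact [CharZero K] (hm : 2 * m ≤ n) {t : ℕ} (D : Fin t → RowLocal K n k)
    (h : ∀ X, ∑ s, ((D s).mat X).det = (numPM X : K)) :
    n.choose m ≤ t * 4 ^ (k * m) := by
  classical
  by_contra hlt
  rw [not_le] at hlt
  obtain ⟨Φ, hne, hΦ⟩ := exists_kernel hm D hlt
  apply hne
  apply disj_exact hm
  intro J'
  have h1 := hΦ J'
  have hf : ((n - 2 * m).factorial : K) ≠ 0 := by
    exact_mod_cast (Nat.factorial_pos _).ne'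
  have h2 : ∑ J, Φ J * ∑ s, ((D s).mat (gr J J')).det =
      ((n - 2 * m).factorial : K) * ∑ J, (if Disjoint J.1 J'.1 then Φ J else 0) := by
    rw [Finset.mul_sum]
    refine Finset.sum_congr rfl fun J _ => ?_
    rw [h]
    by_cases hd : Disjoint J.1 J'.1
    · rw [numPM_disjoint hm J J' hd, if_pos hd, mul_comm]
    · rw [numPM_not_disjoint hm J J' hd, if_neg hd]
      simp
  rw [h2] at h1
  exact (mul_eq_zero.mp h1).resolve_left hf

/-- Approximate version over the complex numbers. -/
theorem choose_le_approx (hm : 5 * m ≤ n) {t : ℕ} (D : Fin t → RowLocal ℂ n k) (ε : ℝ)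
    (hε : (n.choose m : ℝ) * (7 / 3) ^ m * ε < (n - 2 * m).factorial)
    (h : ∀ X, ‖∑ s, ((D s).mat X).det - (numPM X : ℂ)‖ ≤ ε) :
    n.choose m ≤ t * 4 ^ (k * m) := by
  classical
  by_contra hlt
  rw [not_le] at hlt
  have hm2 : 2 * m ≤ n := by omega
  obtain ⟨Φ, hne, hΦ⟩ := exists_kernel hm2 D hlt
  apply hne
  have hε0 : 0 ≤ ε := (norm_nonneg _).trans (h (fun _ _ => true))
  refine disj_robust hm ((n - 2 * m).factorial : ℝ) ε (by exact_mod_cast Nat.factorial_pos _) hε0 hε
    (fun J J' => ∑ s, ((D s).mat (gr J J')).det) ?_ Φ hΦ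
  intro J J'
  have h1 := h (gr J J')
  by_cases hd : Disjoint J.1 J'.1
  · rw [numPM_disjoint hm2 J J' hd] at h1
    rw [if_pos hd]
    exact_mod_cast h1
  · rw [numPM_not_disjoint hm2 J J' hd] at h1
    rw [if_neg hd]
    simpa using h1

/-- The numerical conclusion. -/
theorem final_bound {t : ℕ} (hk : 1 ≤ k)
    (h : ∀ m, 5 * m ≤ n → n.choose m ≤ t * 4 ^ (k * m)) :
    (1 + 1 / 4 ^ k : ℝ) ^ n ≤ (n + 1) * t := by
  have h4 : (4 : ℝ) ≤ 4 ^ k := by
    calc (4 : ℝ) = 4 ^ 1 := by norm_num
      _ ≤ 4 ^ k := pow_le_pow_right₀ (by norm_num) hk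
  have hpos : (0 : ℝ) < 4 ^ k := by positivity
  -- every term is at most t
  have hterm : ∀ m, m ≤ n → (n.choose m : ℝ) * (1 / 4 ^ k) ^ m ≤ t := by
    intro m
    induction m with
    | zero =>
      intro _
      have := h 0 (by omega)
      simp only [Nat.choose_zero_right, mul_zero, pow_zero, mul_one] at this ⊢
      exact_mod_cast this
    | succ m ih =>
      intro hmn
      by_cases h5 : 5 * (m + 1) ≤ n
      · have h1 := h (m + 1) h5
        have h2 : (n.choose (m + 1) : ℝ) ≤ t * (4 ^ k) ^ (m + 1) := by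
          have : (n.choose (m + 1) : ℝ) ≤ ((t * 4 ^ (k * (m + 1)) : ℕ) : ℝ) := by exact_mod_cast h1
          rw [← pow_mul]
          push_cast at this
          exact this
        rw [one_div, inv_pow]
        rw [← div_eq_mul_inv, div_le_iff₀ (by positivity)]
        exact h2
      · have ih' := ih (by omega)
        refine le_trans ?_ ih'
        have hrec : (n.choose (m + 1) : ℝ) * (m + 1) = n.choose m * (n - m) := by
          have := Nat.choose_succ_right_eq n m
          have h3 : ((n.choose (m + 1) * (m + 1) : ℕ) : ℝ) = ((n.choose m * (n - m) : ℕ) : ℝ) := by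
            exact_mod_cast this
          push_cast [Nat.cast_sub (show m ≤ n by omega)] at h3
          exact h3
        have hle : ((n : ℝ) - m) ≤ 4 * (m + 1) := by
          have : n ≤ 5 * m + 4 := by omega
          have : (n : ℝ) ≤ 5 * m + 4 := by exact_mod_cast this
          linarith
        have hc : (n.choose (m + 1) : ℝ) ≤ 4 * n.choose m := by
          have hm1 : (0 : ℝ) < m + 1 := by positivity
          have hcm : (0 : ℝ) ≤ n.choose m := by positivity
          have : (n.choose (m + 1) : ℝ) * (m + 1) ≤ (4 * n.choose m) * (m + 1) := by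
            rw [hrec]
            nlinarith
          exact le_of_mul_le_mul_right this hm1
        rw [pow_succ]
        have hx : (1 / 4 ^ k : ℝ) ≤ 1 / 4 := by
          apply one_div_le_one_div_of_le (by norm_num) h4
        have hy : (0 : ℝ) ≤ (1 / 4 ^ k : ℝ) ^ m := by positivity
        have hz : (0 : ℝ) ≤ (n.choose m : ℝ) := by positivity
        have hw : (0 : ℝ) ≤ (1 / 4 ^ k : ℝ) := by positivity
        calc (n.choose (m + 1) : ℝ) * ((1 / 4 ^ k) ^ m * (1 / 4 ^ k))
            ≤ (4 * n.choose m) * ((1 / 4 ^ k) ^ m * (1 / 4)) := by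
              apply mul_le_mul hc _ (by positivity) (by positivity)
              exact mul_le_mul_of_nonneg_left hx hy
          _ = n.choose m * (1 / 4 ^ k) ^ m := by ring
  have hsum : (1 + 1 / 4 ^ k : ℝ) ^ n = ∑ m ∈ Finset.range (n + 1), (n.choose m : ℝ) * (1 / 4 ^ k) ^ m := by
    rw [add_comm, add_pow]
    refine Finset.sum_congr rfl fun m _ => ?_
    rw [one_pow, mul_one, mul_comm]
  rw [hsum]
  refine (Finset.sum_le_sum fun m hm => hterm m (by rw [Finset.mem_range] at hm; omega)).trans ?_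
  rw [Finset.sum_const, Finset.card_range, nsmul_eq_mul]
  push_cast
  exact le_rfl

/-- `C(n,m) (7/3)^m <= 2^n` for `5 m <= n`. -/
lemma choose_mul_le (h5 : 5 * m ≤ n) : (n.choose m : ℝ) * (7 / 3) ^ m ≤ 2 ^ n := by
  have h1 : (n.choose m : ℝ) * (1 / 4) ^ m ≤ (5 / 4) ^ n := by
    have : (5 / 4 : ℝ) ^ n = ∑ i ∈ Finset.range (n + 1), (n.choose i : ℝ) * (1 / 4) ^ i := by
      have : (5 / 4 : ℝ) = 1 / 4 + 1 := by norm_num
      rw [this, add_pow]
      refine Finset.sum_congr rfl fun i _ => ?_
      rw [one_pow, mul_one, mul_comm]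
    rw [this]
    exact Finset.single_le_sum (f := fun i => (n.choose i : ℝ) * (1 / 4) ^ i)
      (fun i _ => by positivity) (Finset.mem_range.mpr (by omega))
  have h2 : (28 / 3 : ℝ) ^ m ≤ (8 / 5) ^ n := by
    calc (28 / 3 : ℝ) ^ m ≤ ((8 / 5) ^ 5) ^ m := by
          apply pow_le_pow_left₀ (by norm_num)
          norm_num
      _ = (8 / 5) ^ (5 * m) := by rw [pow_mul]
      _ ≤ (8 / 5) ^ n := pow_le_pow_right₀ (by norm_num) h5
  have h3 : (7 / 3 : ℝ) ^ m = (1 / 4) ^ m * (28 / 3) ^ m := by
    rw [← mul_pow]; norm_num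
  calc (n.choose m : ℝ) * (7 / 3) ^ m = ((n.choose m : ℝ) * (1 / 4) ^ m) * (28 / 3) ^ m := by
        rw [h3]; ring
    _ ≤ (5 / 4) ^ n * (8 / 5) ^ n := mul_le_mul h1 h2 (by positivity) (by positivity)
    _ = 2 ^ n := by rw [← mul_pow]; norm_num

theorem exact_bound [CharZero K] (hk : 1 ≤ k) {t : ℕ} (D : Fin t → RowLocal K n k)
    (h : ∀ X, ∑ s, ((D s).mat X).det = (numPM X : K)) :
    (1 + 1 / 4 ^ k : ℝ) ^ n ≤ (n + 1) * t :=
  final_bound hk fun m hm => choose_le_exact (by omega) D h

theorem approx_bound (hk : 1 ≤ k) {t : ℕ} (D : Fin t → RowLocal ℂ n k) (ε : ℝ)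
    (hε : 2 ^ n * ε < (n - 2 * (n / 5)).factorial)
    (h : ∀ X, ‖∑ s, ((D s).mat X).det - (numPM X : ℂ)‖ ≤ ε) :
    (1 + 1 / 4 ^ k : ℝ) ^ n ≤ (n + 1) * t := by
  have hε0 : 0 ≤ ε := (norm_nonneg _).trans (h (fun _ _ => true))
  refine final_bound hk fun m hm => choose_le_approx hm D ε ?_ h
  have h1 : (n.choose m : ℝ) * (7 / 3) ^ m * ε ≤ 2 ^ n * ε :=
    mul_le_mul_of_nonneg_right (choose_mul_le hm) hε0
  have h2 : ((n - 2 * (n / 5)).factorial : ℝ) ≤ (n - 2 * m).factorial := by
    have : n - 2 * (n / 5) ≤ n - 2 * m := by omega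
    exact_mod_cast Nat.factorial_le this
  linarith

end Pool.Agent.Helper15.RD
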