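import Pool.Agent.Helper15.RD.Main
import Pool.Agent.Helper15.RD.AvgMain

/-!
# Matrices built from row updates

A `RowUpdate K n` is a square matrix of any size over `K` attached to a 0-1 matrix `X` with `n`
rows, of the form `C + ∑ j, L j * R j (X j)`, where `C` is a constant matrix, `L j` is a constant
matrix with `rk j` columns, and `R j` is an arbitrary function of the row `X j` whose values are
matrices with `rk j` rows.  It is turned into a larger matrix with the same determinant whose rows
are functions of at most one row of `X`.
-/

namespace Pool.Agent.Helper15.RD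

open Matrix Finset

/-- A square matrix `C + ∑ j, L j * R j (X j)` with `L j` constant with `rk j` columns and `R j` an
arbitrary function of the `j`-th row of `X`. -/
structure RowUpdate (K : Type*) (n : ℕ) where
  /-- the size of the matrix -/
  size : ℕ
  /-- the constant part -/
  base : Matrix (Fin size) (Fin size) K
  /-- the number of columns of the left factors -/
  rk : Fin n → ℕ
  /-- the constant left factors -/
  left : (j : Fin n) → Matrix (Fin size) (Fin (rk j)) K
  /-- the right factors, arbitrary functions of one row of `X` -/
  right : (j : Fin n) → (Fin n → Bool) → Matrix (Fin (rk j)) (Fin size) K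

/-- The matrix attached to `X`. -/
def RowUpdate.mat {K : Type*} [Field K] {n : ℕ} (E : RowUpdate K n)
    (X : Fin n → Fin n → Bool) : Matrix (Fin E.size) (Fin E.size) K :=
  E.base + ∑ j, E.left j * E.right j (X j)

variable {K : Type*} [Field K] {n k : ℕ}

/-- The larger matrix. -/
def RowUpdate.big (E : RowUpdate K n) (X : Fin n → Fin n → Bool) :
    Matrix (Fin E.size ⊕ (j : Fin n) × Fin (E.rk j)) (Fin E.size ⊕ (j : Fin n) × Fin (E.rk j)) K :=
  Matrix.fromBlocks E.base (Matrix.of fun i x => E.left x.1 i x.2)
    (Matrix.of fun x c => -E.right x.1 (X x.1) x.2 c) 1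

lemma RowUpdate.det_big (E : RowUpdate K n) (X : Fin n → Fin n → Bool) :
    (E.big X).det = (E.mat X).det := by
  unfold RowUpdate.big RowUpdate.mat
  rw [Matrix.det_fromBlocks_one₂₂]
  congr 1
  ext i c
  simp only [Matrix.sub_apply, Matrix.add_apply, Matrix.mul_apply, Matrix.of_apply,
    Matrix.sum_apply, mul_neg, Finset.sum_neg_distrib, sub_neg_eq_add]
  rw [Fintype.sum_sigma]

/-- The row of `X` used by a row of the larger matrix. -/
def own (size : ℕ) (rk : Fin n → ℕ) : Fin size ⊕ (j : Fin n) × Fin (rk j) → Option (Fin n)
  | .inl _ => none
  | .inr x => some x.1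

/-- The matrix with rows depending on at most one row of `X` attached to a row update. -/
noncomputable def RowUpdate.toFun (E : RowUpdate K n) : RowFun K n where
  size := Fintype.card (Fin E.size ⊕ (j : Fin n) × Fin (E.rk j))
  mat X := Matrix.reindex (Fintype.equivFin _) (Fintype.equivFin _) (E.big X)
  owner i := own E.size E.rk ((Fintype.equivFin (Fin E.size ⊕ (j : Fin n) × Fin (E.rk j))).symm i)
  loc := by
    intro i X Y h
    funext c
    simp only [Matrix.reindex_apply, Matrix.submatrix_apply]
    generalize (Fintype.equivFin (Fin E.size ⊕ (j : Fin n) × Fin (E.rk j))).symm i = a at h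
    generalize (Fintype.equivFin (Fin E.size ⊕ (j : Fin n) × Fin (E.rk j))).symm c = b
    rcases a with a | x
    · rcases b with b | y <;> rfl
    · have hx := h x.1 rfl
      rcases b with b | y
      · simp only [RowUpdate.big, Matrix.fromBlocks_apply₂₁, Matrix.of_apply, hx]
      · rfl

lemma card_fib (size : ℕ) (rk : Fin n → ℕ) (j : Fin n) :
    (univ.filter fun i : Fin (Fintype.card (Fin size ⊕ (j : Fin n) × Fin (rk j))) =>
      own size rk ((Fintype.equivFin (Fin size ⊕ (j : Fin n) × Fin (rk j))).symm i) = some j).card ≤
      rk j := by
  have h1 : (univ.filter fun i : Fin (Fintype.card (Fin size ⊕ (j : Fin n) × Fin (rk j))) =>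
      own size rk ((Fintype.equivFin (Fin size ⊕ (j : Fin n) × Fin (rk j))).symm i) = some j) ⊆
      (univ : Finset (Fin (rk j))).image fun a =>
        Fintype.equivFin (Fin size ⊕ (j : Fin n) × Fin (rk j)) (.inr ⟨j, a⟩) := by
    intro i hi
    rw [mem_filter] at hi
    obtain ⟨_, hi⟩ := hi
    rw [mem_image]
    obtain ⟨z, rfl⟩ := (Fintype.equivFin (Fin size ⊕ (j : Fin n) × Fin (rk j))).surjective i
    rw [Equiv.symm_apply_apply] at hi
    rcases z with z | ⟨z, a⟩
    · simp [own] at hi
    · have : z = j := by simpa [own] using hi
      subst this
      exact ⟨a, mem_univ _, rfl⟩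
  refine (Finset.card_le_card h1).trans (Finset.card_image_le.trans ?_)
  rw [Finset.card_univ, Fintype.card_fin]

lemma RowUpdate.rd_toFun_le (E : RowUpdate K n) (j : Fin n) : E.toFun.rd j ≤ E.rk j :=
  card_fib E.size E.rk j

lemma RowUpdate.det_toFun (E : RowUpdate K n) (X : Fin n → Fin n → Bool) :
    (E.toFun.mat X).det = (E.mat X).det := by
  rw [← E.det_big X]
  exact Matrix.det_reindex_self _ _

/-- A `RowFun` which uses each row of `X` at most `k` times. -/
def RowFun.toLocal (D : RowFun K n) (h : ∀ j, D.rd j ≤ k) : RowLocal K n k where
  size := D.size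
  mat := D.mat
  owner := D.owner
  loc := D.loc
  reads := h

/-- Every matrix whose rows are functions of at most one row of `X` is a row update, with `rk j`
the number of rows which use the row `j` of `X`. -/
theorem RowFun.exists_update (D : RowFun K n) :
    ∃ E : RowUpdate K n, E.rk = D.rd ∧ ∃ h : E.size = D.size,
      ∀ X, (E.mat X).submatrix (Fin.cast h.symm) (Fin.cast h.symm) = D.mat X := by
  classical
  -- for every `j`, a bijection of the set of rows using `j` with `Fin (rd j)`
  have hinj : ∀ j : Fin n, ∃ e : {i // D.owner i = some j} → Fin (D.rd j), Function.Injective e := by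
    intro j
    have h1 : Fintype.card {i // D.owner i = some j} ≤ Fintype.card (Fin (D.rd j)) := by
      rw [Fintype.card_subtype, Fintype.card_fin]
      exact le_rfl
    obtain ⟨e⟩ := Function.Embedding.nonempty_of_card_le h1
    exact ⟨e, e.injective⟩
  choose e he using hinj
  -- extension of a row to a 0-1 matrix
  let ext : (Fin n → Bool) → Fin n → Fin n → Bool := fun v _ => v
  let X0 : Fin n → Fin n → Bool := fun _ _ => false
  refine ⟨{ size := D.size
            base := D.mat X0
            rk := D.rd
            left := fun j => Matrix.of fun i a =>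
              if h : D.owner i = some j then (if e j ⟨i, h⟩ = a then 1 else 0) else 0
            right := fun j v => Matrix.of fun a c =>
              ∑ i : {i // D.owner i = some j}, if e j i = a then D.mat (ext v) i.1 c - D.mat X0 i.1 c
                else 0 }, rfl, rfl, fun X => ?_⟩
  ext i c
  simp only [Matrix.submatrix_apply, RowUpdate.mat, Fin.cast_eq_self, Matrix.add_apply,
    Matrix.sum_apply, Matrix.mul_apply, Matrix.of_apply]
  have hrow : ∀ j, (∑ a : Fin (D.rd j), (if h : D.owner i = some j then
      (if e j ⟨i, h⟩ = a then (1 : K) else 0) else 0) *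
      ∑ i' : {i // D.owner i = some j}, (if e j i' = a then D.mat (ext (X j)) i'.1 c - D.mat X0 i'.1 c
                else 0)) = if D.owner i = some j then D.mat X i c - D.mat X0 i c else 0 := by
    intro j
    by_cases h : D.owner i = some j
    · simp only [dif_pos h, if_pos h]
      rw [Finset.sum_eq_single (e j ⟨i, h⟩)]
      · rw [if_pos rfl, one_mul, Finset.sum_eq_single ⟨i, h⟩]
        · rw [if_pos rfl]
          have := D.loc i (ext (X j)) X (by
            intro j' hj'
            rw [h] at hj'
            have := Option.some.inj hj'
            subst this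
            rfl)
          rw [this]
        · intro i' _ hne
          rw [if_neg]
          intro h'
          exact hne (he j h')
        · intro h'
          exact absurd (mem_univ _) h'
      · intro a _ hne
        rw [if_neg (Ne.symm hne), zero_mul]
      · intro h'
        exact absurd (mem_univ _) h'
    · simp only [dif_neg h, if_neg h, zero_mul, Finset.sum_const_zero]
  simp only [hrow]
  rcases ho : D.owner i with _ | j
  · simp only [reduceCtorEq, if_false, Finset.sum_const_zero, add_zero]
    have := D.loc i X0 X (by
      intro j' hj'
      rw [ho] at hj'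
      exact absurd hj' (by simp))
    rw [this]
  · rw [Finset.sum_eq_single j]
    · rw [if_pos rfl]; ring
    · intro j' _ hne
      rw [if_neg]
      intro h'
      exact hne (Option.some.inj h').symm
    · intro h'
      exact absurd (mem_univ _) h'

end Pool.Agent.Helper15.RD
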